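import Mathlib
import Pool.Agent.TH488.HW.Diag

set_option autoImplicit false

/-! Localizing the diagram lemma. -/

namespace Pool.Agent.TH488.HWG

open Function
open Pool.Agent.TH488.HW

section Fin

variable {P : Type*} [CommRing P] (W : Submonoid P)

theorem isNoetherian_loc (X : Type*) [AddCommGroup X] [Module P X] [IsNoetherian P X] :
    IsNoetherian (Localization W) (LocalizedModule W X) := by
  have gi := Submodule.localized'gi (Localization W) W (LocalizedModule.mkLinearMap W X)
  have h : WellFoundedGT (Submodule P X) := inferInstance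
  have h2 : WellFoundedGT (Submodule (Localization W) (LocalizedModule W X)) :=
    gi.strictMono_u.wellFoundedGT
  exact monotone_stabilizes_iff_noetherian.1
    (monotone_stabilizes_iff_noetherian.2 (isNoetherian_iff'.2 h2))

theorem isArtinian_loc (X : Type*) [AddCommGroup X] [Module P X] [h : IsArtinian P X] :
    IsArtinian (Localization W) (LocalizedModule W X) := by
  have gi := Submodule.localized'gi (Localization W) W (LocalizedModule.mkLinearMap W X)
  exact gi.strictMono_u.wellFoundedLT

end Fin

section Maps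

variable {P : Type*} [CommRing P] (W : Submonoid P)
variable {X Y Z : Type*} [AddCommGroup X] [Module P X] [AddCommGroup Y] [Module P Y]
  [AddCommGroup Z] [Module P Z]

/-- The localized map. -/
noncomputable abbrev lm (f : X →ₗ[P] Y) :
    LocalizedModule W X →ₗ[Localization W] LocalizedModule W Y :=
  IsLocalizedModule.mapExtendScalars W (LocalizedModule.mkLinearMap W X)
    (LocalizedModule.mkLinearMap W Y) (Localization W) f

theorem lm_mk (f : X →ₗ[P] Y) (x : X) (s : W) :
    lm W f (LocalizedModule.mk x s) = LocalizedModule.mk (f x) s :=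
  IsLocalizedModule.map_LocalizedModules W f x s

theorem lm_exact (f : X →ₗ[P] Y) (g : Y →ₗ[P] Z) (h : Exact f g) : Exact (lm W f) (lm W g) :=
  LocalizedModule.map_exact W f g h

theorem lm_surjective (f : X →ₗ[P] Y) (h : Surjective f) : Surjective (lm W f) :=
  IsLocalizedModule.map_surjective W (LocalizedModule.mkLinearMap W X)
    (LocalizedModule.mkLinearMap W Y) f h

theorem lm_injective (f : X →ₗ[P] Y) (h : Injective f) : Injective (lm W f) :=
  IsLocalizedModule.map_injective W (LocalizedModule.mkLinearMap W X)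
    (LocalizedModule.mkLinearMap W Y) f h

theorem mk_eq_zero_iff (x : X) (s : W) :
    LocalizedModule.mk x s = 0 ↔ ∃ w ∈ W, w • x = 0 := by
  rw [← LocalizedModule.zero_mk (1 : W), LocalizedModule.mk_eq]
  constructor
  · rintro ⟨u, hu⟩
    refine ⟨u, u.2, ?_⟩
    rw [smul_zero, smul_zero, one_smul] at hu
    exact hu
  · rintro ⟨w, hw, hx⟩
    refine ⟨⟨w, hw⟩, ?_⟩
    rw [smul_zero, smul_zero, one_smul]
    exact hx

theorem lm_injective_iff (f : X →ₗ[P] Y) :
    Injective (lm W f) ↔ ∀ x, f x = 0 → ∃ w ∈ W, w • x = 0 := by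
  rw [injective_iff_map_eq_zero]
  constructor
  · intro h x hx
    rw [← mk_eq_zero_iff W x 1]
    apply h
    rw [lm_mk, hx, LocalizedModule.zero_mk]
  · intro h x
    induction x using LocalizedModule.induction_on with
    | _ m s =>
      intro hm
      rw [lm_mk, mk_eq_zero_iff] at hm
      obtain ⟨w, hw, h0⟩ := hm
      rw [← map_smul] at h0
      obtain ⟨w', hw', h1⟩ := h _ h0
      rw [mk_eq_zero_iff]
      exact ⟨w' * w, W.mul_mem hw' hw, by rw [mul_smul, h1]⟩

theorem lm_comm {X' Y' : Type*} [AddCommGroup X'] [Module P X'] [AddCommGroup Y'] [Module P Y']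
    (f : X →ₗ[P] Y) (g : Y →ₗ[P] Y') (f' : X →ₗ[P] X') (g' : X' →ₗ[P] Y')
    (h : ∀ x, g (f x) = g' (f' x)) (x : LocalizedModule W X) :
    lm W g (lm W f x) = lm W g' (lm W f' x) := by
  induction x using LocalizedModule.induction_on with
  | _ m s => rw [lm_mk, lm_mk, lm_mk, lm_mk, h]

theorem lm_zero (f : X →ₗ[P] Y) (g : Y →ₗ[P] Z)
    (h : ∀ x, g (f x) = 0) (x : LocalizedModule W X) :
    lm W g (lm W f x) = 0 := by
  induction x using LocalizedModule.induction_on with
  | _ m s => rw [lm_mk, lm_mk, h, LocalizedModule.zero_mk]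

/-- The localization of a quotient of a module with Artinian localization is Artinian. -/
theorem artin_of_surj (f : X →ₗ[P] Y) (hf : Surjective f)
    (h : IsArtinian (Localization W) (LocalizedModule W X)) :
    IsArtinian (Localization W) (LocalizedModule W Y) :=
  isArtinian_of_surjective _ (lm W f) (lm_surjective W f hf)

/-- If `w` kills the difference. -/
theorem artin_of_mul (w : P) (hw : w ∈ W)
    (h : IsArtinian (Localization W) (LocalizedModule W (LinearMap.range (LinearMap.lsmul P X w)))) :
    IsArtinian (Localization W) (LocalizedModule W X) := by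
  have hinj : Injective (lm W (LinearMap.lsmul P X w).rangeRestrict) := by
    rw [lm_injective_iff]
    intro x hx
    exact ⟨w, hw, congrArg Subtype.val hx⟩
  exact isArtinian_of_injective _ hinj

end Maps

section Diagram

variable {P : Type*} [CommRing P] (W : Submonoid P)
variable {CN CF CL DN DF DL : Type*}
  [AddCommGroup CN] [Module P CN] [AddCommGroup CF] [Module P CF] [AddCommGroup CL] [Module P CL]
  [AddCommGroup DN] [Module P DN] [AddCommGroup DF] [Module P DF] [AddCommGroup DL] [Module P DL]
variable {ιC : CN →ₗ[P] CF} {πC : CF →ₗ[P] CL} {ιD : DN →ₗ[P] DF} {πD : DF →ₗ[P] DL}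
    {γN : CN →ₗ[P] DN} {γF : CF →ₗ[P] DF} {γL : CL →ₗ[P] DL}
    {δN : DN →ₗ[P] DN} {δF : DF →ₗ[P] DF} {δL : DL →ₗ[P] DL}
    {μN : DN →ₗ[P] CN} {μF : DF →ₗ[P] CF} {μL : DL →ₗ[P] CL}

theorem diag_loc (h : Diag ιC πC ιD πD γN γF γL δN δF δL μN μF μL) :
    Diag (lm W ιC) (lm W πC) (lm W ιD) (lm W πD) (lm W γN) (lm W γF) (lm W γL)
      (lm W δN) (lm W δF) (lm W δL) (lm W μN) (lm W μF) (lm W μL) where
  exC := lm_exact W _ _ h.exC
  exD := lm_exact W _ _ h.exD
  surjC := lm_surjective W _ h.surjC
  surjD := lm_surjective W _ h.surjD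
  commγN := lm_comm W _ _ _ _ h.commγN
  commγL := lm_comm W _ _ _ _ h.commγL
  commδN := lm_comm W _ _ _ _ h.commδN
  commδL := lm_comm W _ _ _ _ h.commδL
  commμN := lm_comm W _ _ _ _ h.commμN
  commμL := lm_comm W _ _ _ _ h.commμL
  exN := lm_exact W _ _ h.exN
  exF := lm_exact W _ _ h.exF
  injF := lm_injective W _ h.injF
  μδF := lm_zero W _ _ h.μδF
  exL := lm_exact W _ _ h.exL
  surjL := lm_surjective W _ h.surjL
  δγN := lm_zero W _ _ h.δγN
  δγL := lm_zero W _ _ h.δγL

/-- Localized version of the three conclusions. -/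
theorem diag_concl [IsNoetherian P DN] [IsNoetherian P DL]
    (hart : IsArtinian (Localization W) (LocalizedModule W DL))
    (h : Diag ιC πC ιD πD γN γF γL δN δF δL μN μF μL)
    (d : P) (hd : ∀ n, δN n = d • n) (hW : ∀ w ∈ W, ∀ p : P, w + d * p ∈ W)
    (hinj : ∀ x, ιC x = 0 → ∃ w ∈ W, w • x = 0) :
    (∀ x, ιD x = 0 → ∃ w ∈ W, w • x = 0) ∧
    (∀ x, γN x = 0 → ∃ w ∈ W, w • x = 0) ∧
    (∀ b : P, (∀ y : DF, b • y = 0 → y = 0) → ∀ (n : DN) (c : CN), b • n = γN c →
      ∃ w ∈ W, ∃ c', w • n = γN c') := by
  haveI : IsNoetherian (Localization W) (LocalizedModule W DN) := isNoetherian_loc W DN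
  haveI : IsNoetherian (Localization W) (LocalizedModule W DL) := isNoetherian_loc W DL
  have hl := diag_loc W h
  have hinjC : Injective (lm W ιC) := (lm_injective_iff W _).2 hinj
  have hinjD : Injective (lm W ιD) := by
    rw [← LinearMap.ker_eq_bot]
    have hδ : ∀ z : LocalizedModule W DN, lm W δN z =
        (algebraMap P (Localization W) d) • z := by
      intro z
      induction z using LocalizedModule.induction_on with
      | _ m s =>
        rw [lm_mk, hd, algebraMap_smul, LocalizedModule.smul'_mk]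
    refine Submodule.eq_bot_of_le_smul_of_le_jacobson_bot
      (Ideal.span {algebraMap P (Localization W) d}) _ (IsNoetherian.noetherian _) ?_ ?_
    · intro t ht
      obtain ⟨t', h1, h2⟩ := hl.δ_surj hinjC t ht
      rw [← h2, hδ]
      exact Submodule.smul_mem_smul (Ideal.mem_span_singleton_self _) h1
    · rw [Ideal.span_le, Set.singleton_subset_iff, SetLike.mem_coe, Ideal.mem_jacobson_bot]
      intro y
      obtain ⟨p, w, rfl⟩ := IsLocalization.exists_mk'_eq W y
      have h1 : algebraMap P (Localization W) d * IsLocalization.mk' (Localization W) p w + 1 =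
          IsLocalization.mk' (Localization W) (w + d * p) w := by
        rw [IsLocalization.eq_mk'_iff_mul_eq, add_mul, mul_assoc, IsLocalization.mk'_spec, one_mul,
          map_add, map_mul]
        ring
      rw [h1]
      have h2 : (w : P) + d * p ∈ W := hW w w.2 p
      have h3 := IsLocalization.mk'_mul_mk'_eq_one (S := Localization W) ⟨(w : P) + d * p, h2⟩ w
      exact IsUnit.of_mul_eq_one _ h3
  refine ⟨(lm_injective_iff W _).1 hinjD, (lm_injective_iff W _).1 (hl.injN hinjC), ?_⟩
  intro b hb n c hc
  obtain ⟨c', hc'⟩ := hl.coker_torsionFree hinjC hinjD (algebraMap P (Localization W) b) (by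
    intro y
    induction y using LocalizedModule.induction_on with
    | _ m s =>
      intro hm
      rw [algebraMap_smul, LocalizedModule.smul'_mk, mk_eq_zero_iff] at hm
      obtain ⟨w, hw, h0⟩ := hm
      rw [smul_comm] at h0
      rw [mk_eq_zero_iff]
      exact ⟨w, hw, hb _ h0⟩) (LocalizedModule.mk n 1) (LocalizedModule.mk c 1) (by
      rw [algebraMap_smul, LocalizedModule.smul'_mk, lm_mk, hc])
  induction c' using LocalizedModule.induction_on with
  | _ m s =>
    rw [lm_mk, LocalizedModule.mk_eq] at hc'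
    obtain ⟨u, hu⟩ := hc'
    refine ⟨u * s, W.mul_mem u.2 s.2, u • m, ?_⟩
    rw [mul_smul]
    have h1 : (u : P) • (s : P) • n = u • (1 : W) • γN m := hu.symm
    rw [h1, one_smul]
    exact (map_smul γN (u : P) m).symm

end Diagram

end Pool.Agent.TH488.HWG
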