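import Mathlib
import Pool.Agent.TH488.HWG.Loc

set_option autoImplicit false

/-! The abstract step over the enveloping ring. -/

namespace Pool.Agent.TH488.HWG

open Function
open Pool.Agent.TH488.HW

section Quot

variable {P : Type*} [CommRing P]
variable {X Y Z : Type*} [AddCommGroup X] [Module P X] [AddCommGroup Y] [Module P Y]
  [AddCommGroup Z] [Module P Z]

/-- `X/JX`. -/
abbrev QQ (X : Type*) [AddCommGroup X] [Module P X] (J : Ideal P) : Type _ :=
  X ⧸ (J • (⊤ : Submodule P X))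

theorem smul_top_le_comap (f : X →ₗ[P] Y) (J : Ideal P) :
    (J • (⊤ : Submodule P X)) ≤ (J • (⊤ : Submodule P Y)).comap f := by
  rw [← Submodule.map_le_iff_le_comap, Submodule.map_smul'']
  exact Submodule.smul_mono le_rfl le_top

/-- The map induced on `X/JX`. -/
def qmap (f : X →ₗ[P] Y) (J : Ideal P) : QQ X J →ₗ[P] QQ Y J :=
  Submodule.mapQ _ _ f (smul_top_le_comap f J)

theorem qmap_mk (f : X →ₗ[P] Y) (J : Ideal P) (x : X) :
    qmap f J (Submodule.Quotient.mk x) = Submodule.Quotient.mk (f x) := rfl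

theorem mk_zero_iff (J : Ideal P) (x : X) :
    (Submodule.Quotient.mk x : QQ X J) = 0 ↔ x ∈ J • (⊤ : Submodule P X) :=
  Submodule.Quotient.mk_eq_zero _

theorem qmap_surjective (f : X →ₗ[P] Y) (J : Ideal P) (hf : Surjective f) :
    Surjective (qmap f J) := by
  intro y
  obtain ⟨y, rfl⟩ := Submodule.Quotient.mk_surjective _ y
  obtain ⟨x, rfl⟩ := hf y
  exact ⟨Submodule.Quotient.mk x, rfl⟩

theorem qmap_exact (f : X →ₗ[P] Y) (g : Y →ₗ[P] Z) (J : Ideal P) (hfg : Exact f g)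
    (hg : Surjective g) : Exact (qmap f J) (qmap g J) := by
  intro y
  obtain ⟨y, rfl⟩ := Submodule.Quotient.mk_surjective _ y
  rw [qmap_mk, mk_zero_iff]
  constructor
  · intro hy
    have h1 : J • (⊤ : Submodule P Z) = (J • (⊤ : Submodule P Y)).map g := by
      rw [Submodule.map_smul'', Submodule.map_top, LinearMap.range_eq_top.2 hg]
    rw [h1] at hy
    obtain ⟨y', hy', h2⟩ := hy
    have h3 : g (y - y') = 0 := by rw [map_sub, h2, sub_self]
    obtain ⟨x, hx⟩ := (hfg _).1 h3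
    refine ⟨Submodule.Quotient.mk x, ?_⟩
    rw [qmap_mk, hx, Submodule.Quotient.eq]
    rw [sub_sub_cancel_left]
    exact Submodule.neg_mem _ hy'
  · rintro ⟨x, hx⟩
    obtain ⟨x, rfl⟩ := Submodule.Quotient.mk_surjective _ x
    rw [qmap_mk, Submodule.Quotient.eq] at hx
    have h2 := smul_top_le_comap g J hx
    rw [Submodule.mem_comap, map_sub, hfg.apply_apply_eq_zero, zero_sub] at h2
    exact (Submodule.neg_mem_iff _).1 h2

variable (J : Ideal P) (d g : P)

theorem mem_sup_smul_top (x : X) : x ∈ (J ⊔ Ideal.span {d} : Ideal P) • (⊤ : Submodule P X) ↔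
    ∃ y, x - d • y ∈ J • (⊤ : Submodule P X) := by
  rw [Submodule.sup_smul, Submodule.mem_sup]
  constructor
  · rintro ⟨a, ha, b, hb, rfl⟩
    rw [Submodule.ideal_span_singleton_smul, Submodule.mem_smul_pointwise_iff_exists] at hb
    obtain ⟨y, -, rfl⟩ := hb
    exact ⟨y, by rwa [add_sub_cancel_right]⟩
  · rintro ⟨y, hy⟩
    refine ⟨_, hy, d • y, ?_, by rw [sub_add_cancel]⟩
    exact Submodule.smul_mem_smul (Ideal.mem_span_singleton_self d) trivial

theorem le_sup_smul : (J • (⊤ : Submodule P X)) ≤ (J ⊔ Ideal.span {d} : Ideal P) • ⊤ :=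
  Submodule.smul_mono_left le_sup_left

/-- multiplication by `g`, from `X/(J+(d))X` to `X/JX`. -/
def gmap (X : Type*) [AddCommGroup X] [Module P X] (hgd : g * d ∈ J) :
    QQ X (J ⊔ Ideal.span {d}) →ₗ[P] QQ X J :=
  Submodule.mapQ _ _ (LinearMap.lsmul P X g) (by
    intro x hx
    rw [mem_sup_smul_top] at hx
    obtain ⟨y, hy⟩ := hx
    rw [Submodule.mem_comap, LinearMap.lsmul_apply]
    have h1 : g • x = g • (x - d • y) + (g * d) • y := by
      rw [smul_sub, mul_smul, sub_add_cancel]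
    rw [h1]
    exact Submodule.add_mem _ (Submodule.smul_mem _ _ hy)
      (Submodule.smul_mem_smul hgd trivial))

theorem gmap_mk (hgd : g * d ∈ J) (x : X) :
    gmap J d g X hgd (Submodule.Quotient.mk x) = Submodule.Quotient.mk (g • x) := rfl

/-- the projection from `X/JX` to `X/(J+(d))X`. -/
def mmap (X : Type*) [AddCommGroup X] [Module P X] :
    QQ X J →ₗ[P] QQ X (J ⊔ Ideal.span {d}) :=
  Submodule.mapQ _ _ LinearMap.id (le_sup_smul J d)

theorem mmap_mk (x : X) :
    mmap J d X (Submodule.Quotient.mk x) = Submodule.Quotient.mk x := rfl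

theorem mmap_surjective (X : Type*) [AddCommGroup X] [Module P X] : Surjective (mmap J d X) := by
  intro y
  obtain ⟨y, rfl⟩ := Submodule.Quotient.mk_surjective _ y
  exact ⟨Submodule.Quotient.mk y, rfl⟩

/-- multiplication by `d` -/
def dmap (X : Type*) [AddCommGroup X] [Module P X] : QQ X J →ₗ[P] QQ X J :=
  LinearMap.lsmul P _ d

theorem dmap_mk (x : X) :
    dmap J d X (Submodule.Quotient.mk x) = Submodule.Quotient.mk (d • x) := rfl

theorem dm_exact (X : Type*) [AddCommGroup X] [Module P X] :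
    Exact (dmap J d X) (mmap J d X) := by
  intro y
  obtain ⟨y, rfl⟩ := Submodule.Quotient.mk_surjective _ y
  rw [mmap_mk, mk_zero_iff, mem_sup_smul_top]
  constructor
  · rintro ⟨z, hz⟩
    refine ⟨Submodule.Quotient.mk z, ?_⟩
    rw [dmap_mk, eq_comm, Submodule.Quotient.eq]
    exact hz
  · rintro ⟨z, hz⟩
    obtain ⟨z, rfl⟩ := Submodule.Quotient.mk_surjective _ z
    rw [dmap_mk, eq_comm, Submodule.Quotient.eq] at hz
    exact ⟨z, hz⟩

end Quot

section Step

variable {P : Type*} [CommRing P] (W : Submonoid P)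
variable {N F : Type*} [AddCommGroup N] [Module P N] [AddCommGroup F] [Module P F]
  (φ : N →ₗ[P] F) (J : Ideal P) (d g : P)

theorem abs_diag (hgd : g * d ∈ J)
    (h1 : ∀ z : F, g • z ∈ J • (⊤ : Submodule P F) →
      z ∈ (J ⊔ Ideal.span {d}) • (⊤ : Submodule P F))
    (h2 : ∀ z : F, d • z ∈ J • (⊤ : Submodule P F) → ∃ y, z - g • y ∈ J • (⊤ : Submodule P F)) :
    Diag (qmap φ (J ⊔ Ideal.span {d})) (qmap (LinearMap.range φ).mkQ (J ⊔ Ideal.span {d}))
      (qmap φ J) (qmap (LinearMap.range φ).mkQ J)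
      (gmap J d g N hgd) (gmap J d g F hgd) (gmap J d g (F ⧸ LinearMap.range φ) hgd)
      (dmap J d N) (dmap J d F) (dmap J d (F ⧸ LinearMap.range φ))
      (mmap J d N) (mmap J d F) (mmap J d (F ⧸ LinearMap.range φ)) where
  exC := qmap_exact _ _ _ (LinearMap.exact_map_mkQ_range φ) (Submodule.mkQ_surjective _)
  exD := qmap_exact _ _ _ (LinearMap.exact_map_mkQ_range φ) (Submodule.mkQ_surjective _)
  surjC := qmap_surjective _ _ (Submodule.mkQ_surjective _)
  surjD := qmap_surjective _ _ (Submodule.mkQ_surjective _)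
  commγN x := by
    obtain ⟨x, rfl⟩ := Submodule.Quotient.mk_surjective _ x
    rw [gmap_mk, qmap_mk, qmap_mk, gmap_mk, map_smul]
  commγL x := by
    obtain ⟨x, rfl⟩ := Submodule.Quotient.mk_surjective _ x
    rw [gmap_mk, qmap_mk, qmap_mk, gmap_mk, map_smul]
  commδN x := by
    obtain ⟨x, rfl⟩ := Submodule.Quotient.mk_surjective _ x
    rw [dmap_mk, qmap_mk, qmap_mk, dmap_mk, map_smul]
  commδL x := by
    obtain ⟨x, rfl⟩ := Submodule.Quotient.mk_surjective _ x
    rw [dmap_mk, qmap_mk, qmap_mk, dmap_mk, map_smul]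
  commμN x := by
    obtain ⟨x, rfl⟩ := Submodule.Quotient.mk_surjective _ x
    rw [mmap_mk, qmap_mk, qmap_mk, mmap_mk]
  commμL x := by
    obtain ⟨x, rfl⟩ := Submodule.Quotient.mk_surjective _ x
    rw [mmap_mk, qmap_mk, qmap_mk, mmap_mk]
  exN := dm_exact J d N
  exF := by
    intro y
    obtain ⟨y, rfl⟩ := Submodule.Quotient.mk_surjective _ y
    rw [dmap_mk, mk_zero_iff]
    constructor
    · intro hy
      obtain ⟨z, hz⟩ := h2 y hy
      refine ⟨Submodule.Quotient.mk z, ?_⟩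
      rw [gmap_mk, eq_comm, Submodule.Quotient.eq]
      exact hz
    · rintro ⟨z, hz⟩
      obtain ⟨z, rfl⟩ := Submodule.Quotient.mk_surjective _ z
      rw [gmap_mk, eq_comm, Submodule.Quotient.eq] at hz
      have h3 : d • y = d • (y - g • z) + (g * d) • z := by
        rw [smul_sub, smul_smul, mul_comm g d, sub_add_cancel]
      rw [h3]
      exact Submodule.add_mem _ (Submodule.smul_mem _ _ hz)
        (Submodule.smul_mem_smul hgd trivial)
  injF := by
    rw [injective_iff_map_eq_zero]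
    intro y hy
    obtain ⟨y, rfl⟩ := Submodule.Quotient.mk_surjective _ y
    rw [gmap_mk, mk_zero_iff] at hy
    rw [mk_zero_iff]
    exact h1 y hy
  μδF x := (dm_exact J d F).apply_apply_eq_zero x
  exL := dm_exact J d _
  surjL := mmap_surjective J d _
  δγN x := by
    obtain ⟨x, rfl⟩ := Submodule.Quotient.mk_surjective _ x
    rw [gmap_mk, dmap_mk, mk_zero_iff, smul_smul, mul_comm]
    exact Submodule.smul_mem_smul hgd trivial
  δγL x := by
    obtain ⟨x, rfl⟩ := Submodule.Quotient.mk_surjective _ x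
    rw [gmap_mk, dmap_mk, mk_zero_iff, smul_smul, mul_comm]
    exact Submodule.smul_mem_smul hgd trivial

theorem abs_step [IsNoetherian P N] [IsNoetherian P (F ⧸ LinearMap.range φ)]
    (hart : IsArtinian (Localization W) (LocalizedModule W (F ⧸ LinearMap.range φ)))
    (hgd : g * d ∈ J)
    (hW : ∀ w ∈ W, ∀ p, w + d * p ∈ W)
    (h1 : ∀ z : F, g • z ∈ J • (⊤ : Submodule P F) →
      z ∈ (J ⊔ Ideal.span {d}) • (⊤ : Submodule P F))
    (h2 : ∀ z : F, d • z ∈ J • (⊤ : Submodule P F) → ∃ y, z - g • y ∈ J • (⊤ : Submodule P F))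
    (hinj : ∀ n : N, φ n ∈ (J ⊔ Ideal.span {d}) • (⊤ : Submodule P F) →
      ∃ w ∈ W, w • n ∈ (J ⊔ Ideal.span {d}) • (⊤ : Submodule P N)) :
    (∀ n : N, φ n ∈ J • (⊤ : Submodule P F) → ∃ w ∈ W, w • n ∈ J • (⊤ : Submodule P N)) ∧
    (∀ n : N, g • n ∈ J • (⊤ : Submodule P N) →
      ∃ w ∈ W, w • n ∈ (J ⊔ Ideal.span {d}) • (⊤ : Submodule P N)) ∧
    (∀ b : P, (∀ y : F, b • y ∈ J • (⊤ : Submodule P F) → y ∈ J • (⊤ : Submodule P F)) →
      ∀ n c : N, b • n - g • c ∈ J • (⊤ : Submodule P N) →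
      ∃ w ∈ W, ∃ c', w • n - g • c' ∈ J • (⊤ : Submodule P N)) := by
  have hd := abs_diag φ J d g hgd h1 h2
  have hart' : IsArtinian (Localization W) (LocalizedModule W (QQ (F ⧸ LinearMap.range φ) J)) :=
    artin_of_surj W (Submodule.mkQ _) (Submodule.mkQ_surjective _) hart
  obtain ⟨c1, c2, c3⟩ := diag_concl W hart' hd d (fun n => rfl) hW (by
    intro x hx
    obtain ⟨x, rfl⟩ := Submodule.Quotient.mk_surjective _ x
    rw [qmap_mk, mk_zero_iff] at hx
    obtain ⟨w, hw, h3⟩ := hinj x hx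
    exact ⟨w, hw, (mk_zero_iff _ _).2 h3⟩)
  refine ⟨?_, ?_, ?_⟩
  · intro n hn
    obtain ⟨w, hw, h3⟩ := c1 (Submodule.Quotient.mk n) ((mk_zero_iff _ _).2 hn)
    exact ⟨w, hw, (mk_zero_iff _ _).1 h3⟩
  · intro n hn
    obtain ⟨w, hw, h3⟩ := c2 (Submodule.Quotient.mk n) ((mk_zero_iff _ _).2 hn)
    exact ⟨w, hw, (mk_zero_iff _ _).1 h3⟩
  · intro b hb n c hc
    obtain ⟨w, hw, c', h3⟩ := c3 b (by
      intro y hy
      obtain ⟨y, rfl⟩ := Submodule.Quotient.mk_surjective _ y
      exact (mk_zero_iff _ _).2 (hb y ((mk_zero_iff _ _).1 hy)))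
      (Submodule.Quotient.mk n) (Submodule.Quotient.mk c) ((Submodule.Quotient.eq _).2 hc)
    obtain ⟨c', rfl⟩ := Submodule.Quotient.mk_surjective _ c'
    exact ⟨w, hw, c', (Submodule.Quotient.eq _).1 h3⟩

end Step

end Pool.Agent.TH488.HWG
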