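import Mathlib
import Pool.Agent.TH488.HWG.Abs

set_option autoImplicit false

/-! The inductive statement. -/

namespace Pool.Agent.TH488.HWG

open Function
open Pool.Agent.TH488.HW

variable {P : Type*} [CommRing P] (W : Submonoid P)
variable {N F : Type*} [AddCommGroup N] [Module P N] [AddCommGroup F] [Module P F]
  (φ : N →ₗ[P] F) (I : Ideal P) (VV : Set P)

/-- The inductive statement. -/
def Prd (J : Ideal P) : Prop :=
  (∀ n : N, φ n ∈ J • (⊤ : Submodule P F) → ∃ w ∈ W, w • n ∈ J • (⊤ : Submodule P N)) ∧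
  ∃ c : P, (∀ j ∈ I, c * j ∈ J) ∧
    (∀ n : N, c • n ∈ J • (⊤ : Submodule P N) → ∃ w ∈ W, w • n ∈ I • (⊤ : Submodule P N)) ∧
    (∀ v ∈ VV, ∀ n n' : N, v • n - c • n' ∈ J • (⊤ : Submodule P N) →
      ∃ w ∈ W, ∃ n'', w • n - c • n'' ∈ J • (⊤ : Submodule P N))

theorem prd_top (hinj : ∀ n : N, φ n ∈ I • (⊤ : Submodule P F) →
      ∃ w ∈ W, w • n ∈ I • (⊤ : Submodule P N)) : Prd W φ I VV I := by
  refine ⟨hinj, 1, fun j hj => by rwa [one_mul], ?_, ?_⟩
  · intro n hn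
    exact ⟨1, W.one_mem, by rwa [one_smul] at hn ⊢⟩
  · intro v hv n n' _
    exact ⟨1, W.one_mem, n, by rw [sub_self]; exact Submodule.zero_mem _⟩

theorem prd_step [IsNoetherian P N] [IsNoetherian P (F ⧸ LinearMap.range φ)]
    (hart : IsArtinian (Localization W) (LocalizedModule W (F ⧸ LinearMap.range φ)))
    (J : Ideal P) (d g : P) (hgd : g * d ∈ J)
    (hW : ∀ w ∈ W, ∀ p, w + d * p ∈ W)
    (h1 : ∀ z : F, g • z ∈ J • (⊤ : Submodule P F) →
      z ∈ (J ⊔ Ideal.span {d}) • (⊤ : Submodule P F))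
    (h2 : ∀ z : F, d • z ∈ J • (⊤ : Submodule P F) → ∃ y, z - g • y ∈ J • (⊤ : Submodule P F))
    (h3 : ∀ v ∈ VV, ∀ y : F, v • y ∈ J • (⊤ : Submodule P F) → y ∈ J • (⊤ : Submodule P F))
    (hJ : Prd W φ I VV (J ⊔ Ideal.span {d})) : Prd W φ I VV J := by
  obtain ⟨hinj, c, hc1, hc2, hc3⟩ := hJ
  obtain ⟨s1, s2, s3⟩ := abs_step W φ J d g hart hgd hW h1 h2 hinj
  have hmul : ∀ z : N, z ∈ (J ⊔ Ideal.span {d}) • (⊤ : Submodule P N) →
      g • z ∈ J • (⊤ : Submodule P N) := by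
    intro z hz
    rw [mem_sup_smul_top] at hz
    obtain ⟨y, hy⟩ := hz
    have e : g • z = g • (z - d • y) + (g * d) • y := by
      rw [smul_sub, mul_smul, sub_add_cancel]
    rw [e]
    exact Submodule.add_mem _ (Submodule.smul_mem _ _ hy) (Submodule.smul_mem_smul hgd trivial)
  refine ⟨s1, g * c, ?_, ?_, ?_⟩
  · intro j hj
    have h4 := hc1 j hj
    rw [mul_assoc]
    rw [Submodule.mem_sup] at h4
    obtain ⟨a, ha, b, hb, hab⟩ := h4
    rw [Ideal.mem_span_singleton] at hb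
    obtain ⟨e, rfl⟩ := hb
    rw [← hab, mul_add, ← mul_assoc g d e]
    exact J.add_mem (J.mul_mem_left _ ha) (J.mul_mem_right _ hgd)
  · intro n hn
    rw [mul_smul] at hn
    obtain ⟨w, hw, h4⟩ := s2 _ hn
    rw [smul_comm] at h4
    obtain ⟨w', hw', h5⟩ := hc2 _ h4
    exact ⟨w' * w, W.mul_mem hw' hw, by rwa [mul_smul]⟩
  · intro v hv n n' hn
    rw [mul_smul] at hn
    obtain ⟨w, hw, n₁, h4⟩ := s3 v (h3 v hv) n (c • n') hn
    -- `g (v n₁ - w c n') ∈ J`
    have h5 : g • (v • n₁ - w • c • n') ∈ J • (⊤ : Submodule P N) := by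
      have e : g • (v • n₁ - w • c • n') =
          w • (v • n - g • c • n') - v • (w • n - g • n₁) := by
        rw [smul_sub, smul_sub, smul_sub, smul_comm w v n, smul_comm g v n₁, smul_comm g w]
        abel
      rw [e]
      exact Submodule.sub_mem _ (Submodule.smul_mem _ _ hn) (Submodule.smul_mem _ _ h4)
    obtain ⟨w', hw', h6⟩ := s2 _ h5
    have h7 : v • (w' • n₁) - c • ((w' * w) • n') ∈
        (J ⊔ Ideal.span {d}) • (⊤ : Submodule P N) := by
      have e : v • (w' • n₁) - c • ((w' * w) • n') = w' • (v • n₁ - w • c • n') := by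
        rw [smul_sub, smul_comm v w', mul_smul, smul_comm c w', smul_comm c w]
      rw [e]
      exact h6
    obtain ⟨w'', hw'', n₂, h8⟩ := hc3 v hv _ _ h7
    refine ⟨w'' * w' * w, W.mul_mem (W.mul_mem hw'' hw') hw, n₂, ?_⟩
    have e : (w'' * w' * w) • n - (g * c) • n₂ =
        (w'' * w') • (w • n - g • n₁) + g • (w'' • w' • n₁ - c • n₂) := by
      rw [smul_sub, smul_sub, mul_smul (w'' * w') w n, mul_smul g c n₂,
        mul_smul w'' w' (g • n₁), smul_comm w' g n₁, smul_comm w'' g]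
      abel
    rw [e]
    exact Submodule.add_mem _ (Submodule.smul_mem _ _ h4) (hmul _ h8)

end Pool.Agent.TH488.HWG
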