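import Mathlib
import Pool.Agent.TH488.HWG.Pred
import Pool.Agent.TH488.HW.Main

set_option autoImplicit false

/-! The action of the enveloping ring `T ⊗[V] T` on `X ⊗[V] M`. -/

namespace Pool.Agent.TH488.HWG

open Function TensorProduct
open Pool.Agent.TH488.HW
open Pool.Agent.H578R3.TorRigid (algSub)

universe u

set_option linter.unusedSectionVars false
set_option linter.style.haveILetI false

section Act

variable (V : Type*) [CommRing V] (T : Type*) [CommRing T] [Algebra V T]
variable (X M : Type*) [AddCommGroup X] [Module V X] [Module T X] [IsScalarTower V T X]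
  [AddCommGroup M] [Module V M] [Module T M] [IsScalarTower V T M]

/-- The action. -/
noncomputable def pAct : T ⊗[V] T →ₐ[V] Module.End V (X ⊗[V] M) :=
  (Module.endTensorEndAlgHom (R := V) (S := V) (A := V) (M := X) (N := M)).comp
    (Algebra.TensorProduct.map (Algebra.lsmul V V X) (Algebra.lsmul V V M))

theorem pAct_tmul (s t : T) (x : X) (m : M) :
    pAct V T X M (s ⊗ₜ t) (x ⊗ₜ m) = (s • x) ⊗ₜ (t • m) := rfl

/-- The module structure. -/
noncomputable def envModule : Module (T ⊗[V] T) (X ⊗[V] M) :=
  Module.compHom _ (pAct V T X M).toRingHom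

attribute [local instance] envModule

variable {V T X M}

theorem env_smul (s t : T) (x : X) (m : M) :
    (s ⊗ₜ[V] t : T ⊗[V] T) • (x ⊗ₜ[V] m) = (s • x) ⊗ₜ (t • m) := rfl

theorem env_smul_def (p : T ⊗[V] T) (z : X ⊗[V] M) : p • z = pAct V T X M p z := rfl

theorem env_tower : IsScalarTower V (T ⊗[V] T) (X ⊗[V] M) := by
  refine ⟨fun v p z => ?_⟩
  rw [env_smul_def, env_smul_def, map_smul, LinearMap.smul_apply]

variable (M) in
/-- The map `f ⊗ 1` as a map of modules over the enveloping ring. -/
noncomputable def envMap {Y : Type*} [AddCommGroup Y] [Module V Y] [Module T Y]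
    [IsScalarTower V T Y] (f : X →ₗ[T] Y) : X ⊗[V] M →ₗ[T ⊗[V] T] Y ⊗[V] M where
  toFun := LinearMap.rTensor M (f.restrictScalars V)
  map_add' := map_add _
  map_smul' p z := by
    rw [RingHom.id_apply, env_smul_def, env_smul_def]
    induction p using TensorProduct.induction_on with
    | zero => simp
    | add p q hp hq => rw [map_add, map_add, LinearMap.add_apply, LinearMap.add_apply, map_add, hp, hq]
    | tmul s t =>
      induction z using TensorProduct.induction_on with
      | zero => simp
      | add x y hx hy => rw [map_add, map_add, map_add, map_add, hx, hy]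
      | tmul x m =>
        rw [pAct_tmul, LinearMap.rTensor_tmul, LinearMap.rTensor_tmul, pAct_tmul]
        change f (s • x) ⊗ₜ[V] (t • m) = (s • f x) ⊗ₜ[V] (t • m)
        rw [map_smul]

theorem envMap_apply {Y : Type*} [AddCommGroup Y] [Module V Y] [Module T Y]
    [IsScalarTower V T Y] (f : X →ₗ[T] Y) (z : X ⊗[V] M) :
    envMap M f z = LinearMap.rTensor M (f.restrictScalars V) z := rfl

end Act

section QA

variable {T : Type u} [CommRing T] {V : Subring T} {A : Subring T} (hVA : V ≤ A)
variable (X M : Type*) [AddCommGroup X] [Module T X] [AddCommGroup M] [Module T M]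

attribute [local instance] envModule

/-- The ideal generated by the `a ⊗ 1 - 1 ⊗ a`, `a ∈ A`. -/
def JJ (V A : Subring T) : Ideal (T ⊗[V] T) :=
  Ideal.span {z | ∃ a ∈ A, z = a ⊗ₜ[V] (1 : T) - (1 : T) ⊗ₜ[V] a}

/-- The projection `X ⊗[V] M → X ⊗[A] M`. -/
noncomputable def qA : X ⊗[V] M →+ X ⊗[A] M :=
  TensorProduct.liftAddHom
      { toFun := fun q =>
          { toFun := fun m => q ⊗ₜ[A] m
            map_zero' := TensorProduct.tmul_zero _ _
            map_add' := fun x y => TensorProduct.tmul_add _ _ _ }
        map_zero' := by ext m; exact TensorProduct.zero_tmul _ _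
        map_add' := fun x y => by ext m; exact TensorProduct.add_tmul _ _ _ }
      (fun r q m => TensorProduct.smul_tmul (⟨r, hVA r.2⟩ : A) q m)

theorem qA_tmul (x : X) (m : M) : qA hVA X M (x ⊗ₜ m) = x ⊗ₜ m := rfl

theorem qA_surjective : Surjective (qA hVA X M) := by
  intro z
  induction z using TensorProduct.induction_on with
  | zero => exact ⟨0, map_zero _⟩
  | tmul x m => exact ⟨x ⊗ₜ m, rfl⟩
  | add x y hx hy =>
    obtain ⟨a, rfl⟩ := hx
    obtain ⟨b, rfl⟩ := hy
    exact ⟨a + b, map_add _ _ _⟩

theorem qA_zero_of_mem (z : X ⊗[V] M) (hz : z ∈ JJ V A • (⊤ : Submodule (T ⊗[V] T) (X ⊗[V] M))) :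
    qA hVA X M z = 0 := by
  -- the kernel is a submodule over the enveloping ring
  have hker : ∀ (p : T ⊗[V] T) (z : X ⊗[V] M), qA hVA X M z = 0 → qA hVA X M (p • z) = 0 := by
    intro p
    -- an endomorphism on the quotient
    have h1 : ∃ e : X ⊗[A] M →+ X ⊗[A] M, ∀ z : X ⊗[V] M, qA hVA X M (p • z) = e (qA hVA X M z) := by
      induction p using TensorProduct.induction_on with
      | zero => exact ⟨0, fun z => by rw [zero_smul, map_zero]; rfl⟩
      | add p q hp hq =>
        obtain ⟨e, he⟩ := hp
        obtain ⟨f, hf⟩ := hq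
        exact ⟨e + f, fun z => by rw [add_smul, map_add, he, hf]; rfl⟩
      | tmul s t =>
        let eX : X →ₗ[A] X :=
          { toFun := fun x => s • x
            map_add' := smul_add s
            map_smul' := fun a x => by
              change s • (a : T) • x = (a : T) • s • x
              exact smul_comm _ _ _ }
        let eM : M →ₗ[A] M :=
          { toFun := fun x => t • x
            map_add' := smul_add t
            map_smul' := fun a x => by
              change t • (a : T) • x = (a : T) • t • x
              exact smul_comm _ _ _ }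
        refine ⟨(TensorProduct.map eX eM).toAddMonoidHom, fun z => ?_⟩
        induction z using TensorProduct.induction_on with
        | zero => rw [smul_zero, map_zero, map_zero]
        | add x y hx hy => rw [smul_add, map_add, map_add, map_add, hx, hy]
        | tmul x m => rfl
    obtain ⟨e, he⟩ := h1
    intro z hz
    rw [he, hz, map_zero]
  let K : Submodule (T ⊗[V] T) (X ⊗[V] M) :=
    { carrier := {z | qA hVA X M z = 0}
      zero_mem' := map_zero _
      add_mem' := fun {a b} ha hb => by
        change qA hVA X M (a + b) = 0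
        rw [map_add, show qA hVA X M a = 0 from ha, show qA hVA X M b = 0 from hb, add_zero]
      smul_mem' := fun p z hz => hker p z hz }
  have hle : JJ V A • (⊤ : Submodule (T ⊗[V] T) (X ⊗[V] M)) ≤ K := by
    refine Submodule.smul_le.2 fun r hr z _ => ?_
    revert z
    rw [JJ] at hr
    induction hr using Submodule.span_induction with
    | mem r hr =>
      obtain ⟨a, ha, rfl⟩ := hr
      intro z _
      change qA hVA X M _ = 0
      induction z using TensorProduct.induction_on with
      | zero => rw [smul_zero, map_zero]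
      | add x y hx hy => rw [smul_add, map_add, hx, hy, add_zero]; exact trivial; exact trivial
      | tmul x m =>
        rw [sub_smul, env_smul, env_smul, one_smul, one_smul, map_sub, qA_tmul, qA_tmul, sub_eq_zero]
        exact TensorProduct.smul_tmul (⟨a, ha⟩ : A) x m
    | zero => intro z _; rw [zero_smul]; exact K.zero_mem
    | add r s _ _ hr hs => intro z h; rw [add_smul]; exact K.add_mem (hr z h) (hs z h)
    | smul p r _ hr => intro z h; rw [smul_eq_mul, mul_smul]; exact K.smul_mem p (hr z h)
  exact hle hz

theorem mem_of_qA_zero (z : X ⊗[V] M) (hz : qA hVA X M z = 0) :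
    z ∈ JJ V A • (⊤ : Submodule (T ⊗[V] T) (X ⊗[V] M)) := by
  let inv : X ⊗[A] M →+ QQ (X ⊗[V] M) (JJ V A) :=
    TensorProduct.liftAddHom
      { toFun := fun q =>
          { toFun := fun m => Submodule.Quotient.mk (q ⊗ₜ[V] m)
            map_zero' := by rw [TensorProduct.tmul_zero, Submodule.Quotient.mk_zero]
            map_add' := fun x y => by rw [TensorProduct.tmul_add, Submodule.Quotient.mk_add] }
        map_zero' := by
          ext m
          change Submodule.Quotient.mk ((0 : X) ⊗ₜ[V] m) = (0 : QQ (X ⊗[V] M) (JJ V A))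
          rw [TensorProduct.zero_tmul, Submodule.Quotient.mk_zero]
        map_add' := fun x y => by
          ext m
          change (Submodule.Quotient.mk ((x + y : X) ⊗ₜ[V] m) : QQ (X ⊗[V] M) (JJ V A)) =
            Submodule.Quotient.mk (x ⊗ₜ[V] m) + Submodule.Quotient.mk (y ⊗ₜ[V] m)
          rw [TensorProduct.add_tmul, Submodule.Quotient.mk_add] }
      (fun a x m => by
        change (Submodule.Quotient.mk (((a : T) • x : X) ⊗ₜ[V] m) : QQ (X ⊗[V] M) (JJ V A)) =
            Submodule.Quotient.mk (x ⊗ₜ[V] ((a : T) • m))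
        rw [Submodule.Quotient.eq]
        have h1 : ((a : T) • x) ⊗ₜ[V] m - x ⊗ₜ[V] ((a : T) • m) =
            ((a : T) ⊗ₜ[V] (1 : T) - (1 : T) ⊗ₜ[V] (a : T)) • (x ⊗ₜ[V] m) := by
          rw [sub_smul, env_smul, env_smul, one_smul, one_smul]
        rw [h1]
        exact Submodule.smul_mem_smul (Ideal.subset_span ⟨a, a.2, rfl⟩) trivial)
  have hinv : ∀ z, inv (qA hVA X M z) = Submodule.Quotient.mk z := by
    intro z
    induction z using TensorProduct.induction_on with
    | zero => rw [map_zero, map_zero, Submodule.Quotient.mk_zero]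
    | add x y hx hy => rw [map_add, map_add, hx, hy, Submodule.Quotient.mk_add]
    | tmul x m => rfl
  rw [← mk_zero_iff, ← hinv, hz, map_zero]

theorem mem_iff (z : X ⊗[V] M) :
    z ∈ JJ V A • (⊤ : Submodule (T ⊗[V] T) (X ⊗[V] M)) ↔ qA hVA X M z = 0 :=
  ⟨qA_zero_of_mem hVA X M z, mem_of_qA_zero hVA X M z⟩

end QA

end Pool.Agent.TH488.HWG
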