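import Mathlib
import Pool.Agent.TH488.HWG.Act

set_option autoImplicit false

/-! One monogenic step, seen over the enveloping ring. -/

namespace Pool.Agent.TH488.HWG

open Function TensorProduct Polynomial
open Pool.Agent.TH488.HW
open Pool.Agent.H578R3.TorRigid (algSub ΔE GE tE XE YE XE_apply YE_tmul XE_pow_apply YE_pow_tmul
  ΔE_apply exact_Δt ΔE_inj commXY)

universe u

set_option linter.unusedSectionVars false
set_option linter.style.haveILetI false

/-- `B = A[x]` for a root `x` of a monic polynomial `p` over `A` with `A[X]/(p) ≅ A[x]`. -/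
def Mono (R : Type u) [CommRing R] (A B : Subring R) : Prop :=
  ∃ (x : R) (p : Polynomial A), p.Monic ∧
    (∀ b : R, b ∈ B ↔ ∃ q : Polynomial A, Polynomial.aeval x q = b) ∧
    (∀ q : Polynomial A, Polynomial.aeval x q = 0 ↔ p ∣ q)

section Basic

variable {R : Type u} [CommRing R]

theorem Mono.le {A B : Subring R} (h : Mono R A B) : A ≤ B := by
  obtain ⟨x, p, -, hB, -⟩ := h
  intro a ha
  exact (hB a).2 ⟨Polynomial.C ⟨a, ha⟩, by rw [Polynomial.aeval_C]; rfl⟩

variable {A B : Subring R} (hAB : A ≤ B)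

theorem towerS (M : Type*) [AddCommGroup M] [Module R M] :
    letI := algSub hAB
    IsScalarTower A B M :=
  letI := algSub hAB
  ⟨fun a b m => by
    change ((a : R) * (b : R)) • m = (a : R) • (b : R) • m
    exact mul_smul _ _ _⟩

theorem exists_adj (x : R) (p : Polynomial A) (hp : p.Monic)
    (hB : ∀ b : R, b ∈ B ↔ ∃ q : Polynomial A, Polynomial.aeval x q = b)
    (hker : ∀ q : Polynomial A, Polynomial.aeval x q = 0 ↔ p ∣ q) :
    letI := algSub hAB
    ∃ h : IsAdjoinRootMonic B p, (h.root : R) = x := by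
  letI := algSub hAB
  haveI := towerS hAB R
  have hx : x ∈ B := (hB x).2 ⟨Polynomial.X, Polynomial.aeval_X x⟩
  have hcoe : ∀ q : Polynomial A, ((Polynomial.aeval (⟨x, hx⟩ : B) q : B) : R) =
      Polynomial.aeval x q := by
    intro q
    induction q using Polynomial.induction_on' with
    | add q r hq hr => rw [map_add, map_add, ← hq, ← hr]; rfl
    | monomial i a =>
      rw [Polynomial.aeval_monomial, Polynomial.aeval_monomial]
      rfl
  refine ⟨{ map := Polynomial.aeval (⟨x, hx⟩ : B)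
            map_surjective := ?_
            ker_map := ?_
            monic := hp }, ?_⟩
  · rintro ⟨b, hb⟩
    obtain ⟨q, hq⟩ := (hB b).1 hb
    exact ⟨q, Subtype.ext (by rw [hcoe, hq])⟩
  · ext q
    rw [Ideal.mem_span_singleton, ← hker, RingHom.mem_ker]
    constructor
    · intro hq
      rw [← hcoe]
      exact congrArg Subtype.val hq
    · intro hq
      exact Subtype.ext (by
        have := hcoe q
        rw [hq] at this
        exact this)
  · change ((Polynomial.aeval (⟨x, hx⟩ : B) (Polynomial.X : Polynomial A) : B) : R) = x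
    rw [hcoe, Polynomial.aeval_X]

end Basic

section Step

variable {T : Type u} [CommRing T] {V A B : Subring T} (hVA : V ≤ A) (hAB : A ≤ B)
variable (X M : Type*) [AddCommGroup X] [Module T X] [AddCommGroup M] [Module T M]

attribute [local instance] envModule

/-- The Bezoutian in the enveloping ring. -/
noncomputable def gg (V : Subring T) {A : Subring T} (x : T) (p : Polynomial A) : T ⊗[V] T :=
  ∑ k ∈ Finset.range p.natDegree, ∑ i ∈ Finset.range (k + 1),
    (((p.coeff (k + 1) : A) : T) * x ^ i) ⊗ₜ[V] (x ^ (k + 1 - 1 - i))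

/-- `x ⊗ 1 - 1 ⊗ x`. -/
noncomputable def dd (V : Subring T) (x : T) : T ⊗[V] T :=
  x ⊗ₜ[V] (1 : T) - (1 : T) ⊗ₜ[V] x

theorem JJ_mono {A B : Subring T} (hAB : A ≤ B) : JJ V A ≤ JJ V B := by
  rw [JJ, Ideal.span_le]
  rintro _ ⟨a, ha, rfl⟩
  exact Ideal.subset_span ⟨a, hAB ha, rfl⟩

theorem mem_JJ_of {a : T} (ha : a ∈ A) : a ⊗ₜ[V] (1 : T) - (1 : T) ⊗ₜ[V] a ∈ JJ V A :=
  Ideal.subset_span ⟨a, ha, rfl⟩

theorem JJ_eq (x : T) (hB : ∀ b : T, b ∈ B ↔ ∃ q : Polynomial A, Polynomial.aeval x q = b) :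
    JJ V B = JJ V A ⊔ Ideal.span {dd V x} := by
  apply le_antisymm
  · rw [JJ, Ideal.span_le]
    rintro _ ⟨b, hb, rfl⟩
    obtain ⟨q, rfl⟩ := (hB b).1 hb
    clear hb
    rw [SetLike.mem_coe]
    have hx : dd V x ∈ JJ V A ⊔ Ideal.span {dd V x} :=
      (le_sup_right : _ ≤ JJ V A ⊔ Ideal.span {dd V x}) (Ideal.mem_span_singleton_self _)
    have hmul : ∀ a b : T, a ⊗ₜ[V] (1 : T) - (1 : T) ⊗ₜ[V] a ∈ JJ V A ⊔ Ideal.span {dd V x} →
        b ⊗ₜ[V] (1 : T) - (1 : T) ⊗ₜ[V] b ∈ JJ V A ⊔ Ideal.span {dd V x} →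
        (a * b) ⊗ₜ[V] (1 : T) - (1 : T) ⊗ₜ[V] (a * b) ∈ JJ V A ⊔ Ideal.span {dd V x} := by
      intro a b ha hb
      have e : (a * b) ⊗ₜ[V] (1 : T) - (1 : T) ⊗ₜ[V] (a * b) =
          (a ⊗ₜ[V] (1 : T)) * (b ⊗ₜ[V] (1 : T) - (1 : T) ⊗ₜ[V] b) +
          ((1 : T) ⊗ₜ[V] b) * (a ⊗ₜ[V] (1 : T) - (1 : T) ⊗ₜ[V] a) := by
        rw [mul_sub, mul_sub, Algebra.TensorProduct.tmul_mul_tmul,
          Algebra.TensorProduct.tmul_mul_tmul, Algebra.TensorProduct.tmul_mul_tmul,
          Algebra.TensorProduct.tmul_mul_tmul]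
        simp only [mul_one, one_mul]
        rw [mul_comm b a]
        abel
      rw [e]
      exact Ideal.add_mem _ (Ideal.mul_mem_left _ _ hb) (Ideal.mul_mem_left _ _ ha)
    induction q using Polynomial.induction_on' with
    | add q r hq hr =>
      rw [map_add, TensorProduct.add_tmul, TensorProduct.tmul_add]
      have e : ∀ a b c d : T ⊗[V] T, a + b - (c + d) = (a - c) + (b - d) := fun a b c d => by abel
      rw [e]
      exact Ideal.add_mem _ hq hr
    | monomial i a =>
      rw [Polynomial.aeval_monomial]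
      refine hmul _ _ ((le_sup_left : JJ V A ≤ JJ V A ⊔ Ideal.span {dd V x})
        (mem_JJ_of (V := V) (a := (a : T)) a.2)) ?_
      induction i with
      | zero => rw [pow_zero, sub_self]; exact Ideal.zero_mem _
      | succ i ih => rw [pow_succ]; exact hmul _ _ ih hx
  · refine sup_le (JJ_mono ?_) ?_
    · intro a ha
      exact (hB a).2 ⟨Polynomial.C ⟨a, ha⟩, by rw [Polynomial.aeval_C]; rfl⟩
    · rw [Ideal.span_singleton_le_iff_mem]
      exact mem_JJ_of ((hB x).2 ⟨X, Polynomial.aeval_X x⟩)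

/-- The map to `X ⊗[B] (B ⊗[A] M)`. -/
noncomputable def cA : 
    letI := algSub hAB
    X ⊗[V] M →+ X ⊗[B] (B ⊗[A] M) :=
  letI := algSub hAB
  haveI := towerS hAB X
  ((TensorProduct.AlgebraTensorModule.cancelBaseChange A B B X M).symm.toLinearMap.toAddMonoidHom).comp
    (qA hVA X M)

theorem cA_tmul (x : X) (m : M) :
    letI := algSub hAB
    cA hVA hAB X M (x ⊗ₜ m) = x ⊗ₜ (1 ⊗ₜ m) := rfl

theorem cA_zero_iff (z : X ⊗[V] M) :
    letI := algSub hAB
    cA hVA hAB X M z = 0 ↔ qA hVA X M z = 0 := by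
  letI := algSub hAB
  haveI := towerS hAB X
  exact LinearEquiv.map_eq_zero_iff
    (TensorProduct.AlgebraTensorModule.cancelBaseChange A B B X M).symm

variable {X M}

theorem cA_dd (p : Polynomial A) :
    letI := algSub hAB
    haveI := towerS hAB M
    ∀ (h : IsAdjoinRootMonic B p) (z : X ⊗[V] M),
    cA hVA hAB X M (dd V (h.root : T) • z) =
      LinearMap.lTensor X (tE A M h.root) (cA hVA hAB X M z) := by
  letI := algSub hAB
  haveI := towerS hAB M
  intro h z
  induction z using TensorProduct.induction_on with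
  | zero => rw [smul_zero, map_zero, map_zero]
  | add x y hx hy => rw [smul_add, map_add, map_add, map_add, hx, hy]
  | tmul y m =>
    rw [dd, sub_smul, env_smul, env_smul, one_smul, one_smul, map_sub, cA_tmul, cA_tmul, cA_tmul,
      LinearMap.lTensor_tmul, tE, LinearMap.sub_apply, XE_apply, YE_tmul, TensorProduct.tmul_sub]
    congr 1
    exact TensorProduct.smul_tmul h.root y ((1 : B) ⊗ₜ[A] m)

theorem cA_gg (p : Polynomial A) :
    letI := algSub hAB
    haveI := towerS hAB M
    ∀ (h : IsAdjoinRootMonic B p) (z : X ⊗[V] M),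
    cA hVA hAB X M (gg V (h.root : T) p • z) =
      LinearMap.lTensor X (ΔE M h) (qA (hVA.trans hAB) X M z) := by
  letI := algSub hAB
  haveI := towerS hAB M
  intro h z
  induction z using TensorProduct.induction_on with
  | zero => rw [smul_zero, map_zero, map_zero, map_zero]
  | add x y hx hy => rw [smul_add, map_add, map_add, map_add, hx, hy]
  | tmul y m =>
    rw [qA_tmul, LinearMap.lTensor_tmul, ΔE_apply, GE, LinearMap.sum_apply, gg, Finset.sum_smul,
      map_sum, TensorProduct.tmul_sum]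
    refine Finset.sum_congr rfl fun k _ => ?_
    rw [LinearMap.smul_apply, LinearMap.sum_apply, Finset.sum_smul, map_sum, Finset.smul_sum,
      TensorProduct.tmul_sum]
    refine Finset.sum_congr rfl fun i _ => ?_
    rw [env_smul, cA_tmul, Module.End.mul_apply, YE_pow_tmul, XE_pow_apply, smul_smul]
    exact TensorProduct.smul_tmul (algebraMap A B (p.coeff (k + 1)) * h.root ^ i) y
      ((1 : B) ⊗ₜ[A] (h.root ^ (k + 1 - 1 - i) • m))

end Step

end Pool.Agent.TH488.HWG
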