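import Mathlib
import Pool.Agent.TH488.HWG.MonoG

set_option autoImplicit false

/-! One monogenic step: the hypotheses of the abstract step. -/

namespace Pool.Agent.TH488.HWG

open Function TensorProduct Polynomial
open Pool.Agent.TH488.HW
open Pool.Agent.H578R3.TorRigid (algSub ΔE GE tE XE YE XE_apply YE_tmul XE_pow_apply YE_pow_tmul
  ΔE_apply exact_Δt ΔE_inj commXY)

universe u

set_option linter.unusedSectionVars false
set_option linter.style.haveILetI false

section Step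

variable {T : Type u} [CommRing T] {V A B : Subring T} (hVA : V ≤ A) (hAB : A ≤ B)
variable (F M : Type*) [AddCommGroup F] [Module T F] [AddCommGroup M] [Module T M]

attribute [local instance] envModule

theorem gg_mul_dd (x : T) (p : Polynomial A) (hx : Polynomial.aeval x p = 0) :
    gg V x p * dd V x ∈ JJ V A := by
  have h1 : gg V x p * dd V x = ∑ k ∈ Finset.range p.natDegree,
      ((((p.coeff (k + 1) : A) : T) ⊗ₜ[V] (1 : T)) *
        ((x ⊗ₜ[V] (1 : T)) ^ (k + 1) - ((1 : T) ⊗ₜ[V] x) ^ (k + 1))) := by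
    rw [gg, Finset.sum_mul]
    refine Finset.sum_congr rfl fun k _ => ?_
    rw [← (Commute.all (x ⊗ₜ[V] (1 : T)) ((1 : T) ⊗ₜ[V] x)).mul_geom_sum₂ (k + 1), Finset.sum_mul,
      Finset.mul_sum, Finset.mul_sum]
    refine Finset.sum_congr rfl fun i _ => ?_
    rw [dd, Algebra.TensorProduct.tmul_pow, Algebra.TensorProduct.tmul_pow,
      Algebra.TensorProduct.tmul_mul_tmul, one_pow, one_pow, mul_one, one_mul,
      mul_comm (x ⊗ₜ[V] (1 : T) - (1 : T) ⊗ₜ[V] x), ← mul_assoc,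
      Algebra.TensorProduct.tmul_mul_tmul, one_mul]
  have h2 : gg V x p * dd V x = ∑ k ∈ Finset.range (p.natDegree + 1),
      ((((p.coeff k : A) : T) ⊗ₜ[V] (1 : T)) *
        ((x ⊗ₜ[V] (1 : T)) ^ k - ((1 : T) ⊗ₜ[V] x) ^ k)) := by
    rw [h1, Finset.sum_range_succ' _ p.natDegree, pow_zero, pow_zero, sub_self, mul_zero, add_zero]
  have hx' : (∑ k ∈ Finset.range (p.natDegree + 1), ((p.coeff k : A) : T) * x ^ k) = 0 := by
    rw [Polynomial.aeval_eq_sum_range] at hx
    exact hx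
  have h3 : gg V x p * dd V x = - ∑ k ∈ Finset.range (p.natDegree + 1),
      ((((p.coeff k : A) : T) ⊗ₜ[V] (1 : T)) - ((1 : T) ⊗ₜ[V] ((p.coeff k : A) : T))) *
        ((1 : T) ⊗ₜ[V] x ^ k) := by
    have e1 : (∑ k ∈ Finset.range (p.natDegree + 1),
      ((((p.coeff k : A) : T) ⊗ₜ[V] (1 : T)) * (x ⊗ₜ[V] (1 : T)) ^ k)) = 0 := by
      have : ∀ k, (((p.coeff k : A) : T) ⊗ₜ[V] (1 : T)) * (x ⊗ₜ[V] (1 : T)) ^ k =
          (((p.coeff k : A) : T) * x ^ k) ⊗ₜ[V] (1 : T) := by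
        intro k
        rw [Algebra.TensorProduct.tmul_pow, Algebra.TensorProduct.tmul_mul_tmul, one_pow, mul_one]
      simp only [this]
      rw [← TensorProduct.sum_tmul, hx', TensorProduct.zero_tmul]
    have e2 : (∑ k ∈ Finset.range (p.natDegree + 1),
      (((1 : T) ⊗ₜ[V] ((p.coeff k : A) : T)) * ((1 : T) ⊗ₜ[V] x ^ k))) = 0 := by
      have : ∀ k, (((1 : T) ⊗ₜ[V] ((p.coeff k : A) : T)) * ((1 : T) ⊗ₜ[V] x ^ k)) =
          (1 : T) ⊗ₜ[V] (((p.coeff k : A) : T) * x ^ k) := by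
        intro k
        rw [Algebra.TensorProduct.tmul_pow, Algebra.TensorProduct.tmul_mul_tmul, one_pow, mul_one]
      simp only [this]
      rw [← TensorProduct.tmul_sum, hx', TensorProduct.tmul_zero]
    rw [h2]
    simp only [mul_sub, sub_mul, Finset.sum_sub_distrib]
    rw [e1, e2, sub_zero, zero_sub]
  rw [h3]
  refine Ideal.neg_mem_iff _ |>.2 (Ideal.sum_mem _ fun k _ => Ideal.mul_mem_right _ _ ?_)
  exact mem_JJ_of (p.coeff k).2

include hVA

theorem step_h1 [Nontrivial B] (p : Polynomial A) :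
    letI := algSub hAB
    ∀ (h : IsAdjoinRootMonic B p) [Module.Flat B F] (z : F ⊗[V] M),
    gg V (h.root : T) p • z ∈ JJ V A • (⊤ : Submodule (T ⊗[V] T) (F ⊗[V] M)) →
      z ∈ JJ V B • (⊤ : Submodule (T ⊗[V] T) (F ⊗[V] M)) := by
  letI := algSub hAB
  haveI := towerS hAB M
  intro h _ z hz
  rw [mem_iff hVA, ← cA_zero_iff hVA hAB, cA_gg hVA hAB p h] at hz
  rw [mem_iff (hVA.trans hAB)]
  have hinj := Module.Flat.lTensor_preserves_injective_linearMap (M := F) _ (ΔE_inj M h)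
  exact hinj (by rw [hz, map_zero])

theorem step_h2 [Nontrivial B] (p : Polynomial A) :
    letI := algSub hAB
    ∀ (h : IsAdjoinRootMonic B p) [Module.Flat B F] (z : F ⊗[V] M),
    dd V (h.root : T) • z ∈ JJ V A • (⊤ : Submodule (T ⊗[V] T) (F ⊗[V] M)) →
      ∃ y, z - gg V (h.root : T) p • y ∈ JJ V A • (⊤ : Submodule (T ⊗[V] T) (F ⊗[V] M)) := by
  letI := algSub hAB
  haveI := towerS hAB M
  intro h _ z hz
  rw [mem_iff hVA, ← cA_zero_iff hVA hAB, cA_dd hVA hAB p h] at hz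
  obtain ⟨u, hu⟩ := ((Module.Flat.lTensor_exact F (exact_Δt M h)) _).1 hz
  obtain ⟨y, rfl⟩ := qA_surjective (hVA.trans hAB) F M u
  refine ⟨y, ?_⟩
  rw [mem_iff hVA, ← cA_zero_iff hVA hAB, map_sub, cA_gg hVA hAB p h, hu, sub_self]

theorem step_h3 [Module.Flat A F] (v : V) (hv : ∀ m : M, v • m = 0 → m = 0) (y : F ⊗[V] M)
    (hy : ((v : T) ⊗ₜ[V] (1 : T)) • y ∈ JJ V A • (⊤ : Submodule (T ⊗[V] T) (F ⊗[V] M))) :
    y ∈ JJ V A • (⊤ : Submodule (T ⊗[V] T) (F ⊗[V] M)) := by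
  rw [mem_iff hVA] at hy ⊢
  let vA : A := ⟨v, hVA v.2⟩
  have hinj : Injective (LinearMap.lTensor F (LinearMap.lsmul A M vA)) := by
    apply Module.Flat.lTensor_preserves_injective_linearMap
    rw [injective_iff_map_eq_zero]
    intro m hm
    exact hv m hm
  apply hinj
  rw [map_zero, ← hy]
  clear hy
  induction y using TensorProduct.induction_on with
  | zero => rw [smul_zero, map_zero, map_zero]
  | add x y hx hy => rw [smul_add, map_add, map_add, map_add, hx, hy]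
  | tmul y m =>
    rw [env_smul, qA_tmul, LinearMap.lTensor_tmul, qA_tmul, one_smul]
    exact (TensorProduct.smul_tmul vA y m).symm

end Step

end Pool.Agent.TH488.HWG
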