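import Mathlib
import Pool.Agent.TH488.HWG.MonoH

set_option autoImplicit false

/-! The induction along a tower. -/

namespace Pool.Agent.TH488.HWG

open Function TensorProduct Polynomial
open Pool.Agent.TH488.HW
open Pool.Agent.H578R3.TorRigid (algSub proj_trans proj_trans')

universe u

set_option linter.unusedSectionVars false
set_option linter.style.haveILetI false

section Chain

variable {T : Type u} [CommRing T] {V : Subring T}
variable {N F M : Type*} [AddCommGroup N] [Module T N] [AddCommGroup F] [Module T F]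
  [AddCommGroup M] [Module T M] (ι : N →ₗ[T] F)

attribute [local instance] envModule

/-- The nonzero scalars of `V` in the enveloping ring. -/
def VV (V : Subring T) : Set (T ⊗[V] T) := {z | ∃ v : V, v ≠ 0 ∧ z = (v : T) ⊗ₜ[V] (1 : T)}

theorem tower_finite (B : Subring T) (hchain : Relation.ReflTransGen (Mono T) B ⊤) :
    Module.Projective B T ∧ Module.Finite B T := by
  induction hchain using Relation.ReflTransGen.head_induction_on with
  | refl =>
    let e : (⊤ : Subring T) ≃ₗ[(⊤ : Subring T)] T :=
        { toFun := fun r => (r : T)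
          map_add' := fun _ _ => rfl
          map_smul' := fun _ _ => rfl
          invFun := fun r => ⟨r, trivial⟩
          left_inv := fun _ => rfl
          right_inv := fun _ => rfl }
    exact ⟨Module.Projective.of_equiv e, Module.Finite.equiv e⟩
  | @head A B hstep hrest ih =>
    have hAB : A ≤ B := hstep.le
    obtain ⟨ihproj, ihfin⟩ := ih
    obtain ⟨x, p, hp, hB, hker⟩ := hstep
    letI := algSub hAB
    obtain ⟨h, hroot⟩ := exists_adj hAB x p hp hB hker
    haveI : IsScalarTower A B T := towerS hAB T
    have hfreeAB : Module.Free A B := Module.Free.of_basis h.basis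
    have hfinAB : Module.Finite A B := h.finite
    exact ⟨proj_trans A B T, Module.Finite.trans B T⟩

theorem chainG [Nontrivial T] [Module.Projective T F] (W : Submonoid (T ⊗[V] T))
    (hW : ∀ w ∈ W, ∀ p ∈ JJ V ⊤, w + p ∈ W)
    [IsNoetherian (T ⊗[V] T) (N ⊗[V] M)]
    [IsNoetherian (T ⊗[V] T) ((F ⊗[V] M) ⧸ LinearMap.range (envMap (V := V) M ι))]
    (hart : IsArtinian (Localization W)
      (LocalizedModule W ((F ⊗[V] M) ⧸ LinearMap.range (envMap (V := V) M ι))))
    (htf : ∀ v : V, v ≠ 0 → ∀ m : M, v • m = 0 → m = 0)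
    (hinj : ∀ n : N ⊗[V] M, envMap M ι n ∈ JJ V ⊤ • (⊤ : Submodule (T ⊗[V] T) (F ⊗[V] M)) →
      ∃ w ∈ W, w • n ∈ JJ V ⊤ • (⊤ : Submodule (T ⊗[V] T) (N ⊗[V] M)))
    (B : Subring T) (hchain : Relation.ReflTransGen (Mono T) B ⊤) (hVB : V ≤ B) :
    Prd W (envMap M ι) (JJ V ⊤) (VV V) (JJ V B) := by
  induction hchain using Relation.ReflTransGen.head_induction_on with
  | refl => exact prd_top W _ _ _ hinj
  | @head A B hstep hrest ih =>
    have hAB : A ≤ B := hstep.le
    have ih' := ih (hVB.trans hAB)
    obtain ⟨x, p, hp, hB, hker⟩ := hstep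
    letI := algSub hAB
    obtain ⟨h, hroot⟩ := exists_adj hAB x p hp hB hker
    haveI : IsScalarTower A B T := towerS hAB T
    haveI : IsScalarTower A B F := towerS hAB F
    obtain ⟨hpB, hfB⟩ := tower_finite B hrest
    haveI := hpB
    haveI : Module.Projective B F := proj_trans' B T F
    have hfreeAB : Module.Free A B := Module.Free.of_basis h.basis
    haveI : Module.Projective A F := proj_trans A B F
    have hJ := JJ_eq (V := V) x hB
    rw [hJ] at ih'
    refine prd_step W _ _ _ hart (JJ V A) (dd V x) (gg V x p) ?_ ?_ ?_ ?_ ?_ ih'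
    · exact gg_mul_dd x p ((hker p).2 dvd_rfl)
    · intro w hw q
      exact hW w hw _ (Ideal.mul_mem_right _ _ (mem_JJ_of (V := V) (A := ⊤) (a := x) trivial))
    · intro z hz
      rw [← hJ]
      rw [← hroot] at hz
      exact step_h1 hVB hAB F M p h z hz
    · intro z hz
      rw [← hroot] at hz ⊢
      exact step_h2 hVB hAB F M p h z hz
    · rintro _ ⟨v, hv, rfl⟩ y hy
      exact step_h3 hVB F M v (htf v hv) y hy

end Chain

end Pool.Agent.TH488.HWG
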