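import Mathlib
import Pool.Agent.TH488.HWG.ChainG

set_option autoImplicit false

/-! The Frobenius form of a tower and the pairing. -/

namespace Pool.Agent.TH488.HWG

open Function TensorProduct Polynomial
open Pool.Agent.TH488.HW
open Pool.Agent.H578R3.TorRigid (algSub proj_trans proj_trans')

universe u

set_option linter.unusedSectionVars false
set_option linter.style.haveILetI false

section Tower

variable {R : Type u} [CommRing R]

theorem tower_frob [Nontrivial R] (B : Subring R) (hchain : Relation.ReflTransGen (Mono R) B ⊤) :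
    ∃ l : R →ₗ[B] B,
    (∀ φ : R →ₗ[B] B, ∃ r : R, ∀ s, φ s = l (r * s)) ∧
      (∀ r : R, (∀ s, l (r * s) = 0) → r = 0) := by
  induction hchain using Relation.ReflTransGen.head_induction_on with
  | refl =>
    refine ⟨{ toFun := fun r => ⟨r, trivial⟩, map_add' := fun _ _ => rfl,
              map_smul' := fun _ _ => rfl }, fun φ => ⟨(φ 1 : (⊤ : Subring R)), fun s => ?_⟩,
              fun r hr => ?_⟩
    · have h1 : φ s = (⟨s, trivial⟩ : (⊤ : Subring R)) • φ 1 := by
        rw [← map_smul]
        congr 1
        change s = s * 1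
        rw [mul_one]
      rw [h1]
      apply Subtype.ext
      change s * ((φ 1 : (⊤ : Subring R)) : R) = ((φ 1 : (⊤ : Subring R)) : R) * s
      rw [mul_comm]
    · have := congrArg Subtype.val (hr 1)
      simpa using this
  | @head A B hstep hrest ih =>
    have hAB : A ≤ B := hstep.le
    obtain ⟨lB, hs, hn⟩ := ih
    obtain ⟨x, p, hp, hB, hker⟩ := hstep
    letI := algSub hAB
    obtain ⟨h, hroot⟩ := exists_adj hAB x p hp hB hker
    haveI : IsScalarTower A B R := towerS hAB R
    obtain ⟨l, hls, hln⟩ := mono_frob h
    refine ⟨l ∘ₗ lB.restrictScalars A, fun φ => ?_, fun r hr => ?_⟩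
    · have h1 : ∀ s : R, ∃ y : B, ∀ b : B, φ (b • s) = l (y * b) := by
        intro s
        obtain ⟨y, hy⟩ := hls (φ ∘ₗ ((LinearMap.toSpanSingleton B R s).restrictScalars A))
        exact ⟨y, hy⟩
      choose ψ hψ using h1
      have huniq : ∀ y y' : B, (∀ b, l (y * b) = l (y' * b)) → y = y' := by
        intro y y' hyy
        rw [← sub_eq_zero]
        apply hln
        intro c
        rw [sub_mul, map_sub, hyy, sub_self]
      let ψl : R →ₗ[B] B :=
        { toFun := ψ
          map_add' := by
            intro s t
            apply huniq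
            intro b
            rw [← hψ, smul_add, map_add, hψ, hψ, add_mul, map_add]
          map_smul' := by
            intro b' s
            apply huniq
            intro b
            rw [← hψ, smul_smul, hψ, RingHom.id_apply, smul_eq_mul]
            congr 1
            ring }
      obtain ⟨r, hr⟩ := hs ψl
      refine ⟨r, fun s => ?_⟩
      have h2 := hψ s 1
      rw [one_smul, mul_one] at h2
      rw [h2]
      change l (ψl s) = l (lB (r * s))
      rw [hr]
    · apply hn
      intro s
      apply hln
      intro c
      have h3 : lB (r * s) * c = lB (r * (c • s)) := by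
        rw [mul_smul_comm, map_smul, smul_eq_mul, mul_comm]
      rw [h3]
      exact hr (c • s)

end Tower

section Pairing

variable {R : Type u} [CommRing R] {V : Subring R} (l : R →ₗ[V] V)
variable {M N : Type*} [AddCommGroup M] [Module R M] [AddCommGroup N] [Module R N]
variable (pr : N →ₗ[R] M →ₗ[R] R)

/-- The pairing `(n, m) ↦ l (n m)`. -/
def bt : N →+ M →+ V :=
    { toFun := fun n =>
        { toFun := fun m => l (pr n m)
          map_zero' := by rw [map_zero, map_zero]
          map_add' := fun x y => by rw [map_add, map_add] }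
      map_zero' := by ext m; simp
      map_add' := fun x y => by ext m; simp }

theorem bt_apply (n : N) (m : M) : bt l pr n m = l (pr n m) := rfl

theorem bt_bal (b : R) (n : N) (m : M) : bt l pr (b • n) m = bt l pr n (b • m) := by
  rw [bt_apply, bt_apply, map_smul, map_smul, LinearMap.smul_apply]

theorem bt_smul (v : V) (n : N) (m : M) : bt l pr (v • n) m = v * bt l pr n m := by
  have h1 : v • n = (v : R) • n := rfl
  rw [bt_apply, bt_apply, h1, map_smul, LinearMap.smul_apply]
  exact map_smul l v (pr n m)

theorem bt_smul_right (v : V) (n : N) (m : M) : bt l pr n (v • m) = v * bt l pr n m := by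
  rw [← bt_smul]
  exact (bt_bal l pr (v : R) n m).symm

variable (hls : ∀ φ : R →ₗ[V] V, ∃ r : R, ∀ s, φ s = l (r * s))
variable (hln : ∀ r : R, (∀ s, l (r * s) = 0) → r = 0)
variable (hpr : Function.Bijective pr)

include hls hln hpr

/-- Every `V`-functional on `M` comes from the dual. -/
theorem bt_dual (g : Module.Dual V M) : ∃ n : N, ∀ m, g m = bt l pr n m := by
  have h1 : ∀ m : M, ∃ r : R, ∀ t : R, g (t • m) = l (r * t) := by
    intro m
    obtain ⟨r, hr⟩ := hls (g ∘ₗ ((LinearMap.toSpanSingleton R M m).restrictScalars V))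
    exact ⟨r, hr⟩
  choose ψ hψ using h1
  have huniq : ∀ y y' : R, (∀ b, l (y * b) = l (y' * b)) → y = y' := by
    intro y y' hyy
    rw [← sub_eq_zero]
    apply hln
    intro c
    rw [sub_mul, map_sub, hyy, sub_self]
  let n' : M →ₗ[R] R :=
    { toFun := ψ
      map_add' := by
        intro x y
        apply huniq
        intro b
        rw [← hψ, smul_add, map_add, hψ, hψ, add_mul, map_add]
      map_smul' := by
        intro r x
        apply huniq
        intro b
        rw [← hψ, smul_smul, hψ, RingHom.id_apply, smul_eq_mul]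
        congr 1
        ring }
  obtain ⟨n, hn⟩ := hpr.2 n'
  refine ⟨n, fun m => ?_⟩
  rw [bt_apply, hn]
  have := hψ m 1
  rwa [one_smul, mul_one] at this

omit hls in
theorem bt_uniq (n n' : N) (hnn : ∀ m, bt l pr n m = bt l pr n' m) : n = n' := by
  apply hpr.1
  ext m
  rw [← sub_eq_zero]
  apply hln
  intro t
  have := hnn (t • m)
  rw [bt_apply, bt_apply, (pr n).map_smul, (pr n').map_smul, smul_eq_mul, smul_eq_mul] at this
  rw [sub_mul, map_sub, mul_comm (pr n m), mul_comm (pr n' m), this, sub_self]

theorem bt_perf [Module.Projective V M] [Module.Finite V M] (ψ : N →ₗ[V] V) :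
    ∃ m : M, ∀ n, ψ n = bt l pr n m := by
  have hdual := bt_dual l pr hls hln hpr
  choose Θ hΘ using hdual
  let Θl : Module.Dual V M →ₗ[V] N :=
    { toFun := Θ
      map_add' := by
        intro x y
        apply bt_uniq l pr hln hpr
        intro m
        rw [← hΘ, LinearMap.add_apply, hΘ, hΘ, map_add, AddMonoidHom.add_apply]
      map_smul' := by
        intro v x
        apply bt_uniq l pr hln hpr
        intro m
        rw [← hΘ, LinearMap.smul_apply, hΘ, RingHom.id_apply, bt_smul, smul_eq_mul] }
  obtain ⟨m, hm⟩ := (Module.evalEquiv V M).surjective (ψ ∘ₗ Θl)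
  refine ⟨m, fun n => ?_⟩
  let g : Module.Dual V M :=
    { toFun := fun m => bt l pr n m
      map_add' := map_add _
      map_smul' := fun v m => bt_smul_right l pr v n m }
  have hg : Θ g = n := by
    apply bt_uniq l pr hln hpr
    intro m
    rw [← hΘ]
    rfl
  have h1 := LinearMap.congr_fun hm g
  rw [Module.evalEquiv_apply, Module.Dual.eval_apply] at h1
  have h2 : (ψ ∘ₗ Θl) g = ψ (Θ g) := rfl
  rw [h2, hg] at h1
  rw [← h1]
  rfl

theorem bt_nd [Module.Projective V M] (m : M) (hm : ∀ n, bt l pr n m = 0) : m = 0 := by
  rw [← Module.forall_dual_apply_eq_zero_iff V m]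
  intro g
  obtain ⟨n, hn⟩ := bt_dual l pr hls hln hpr g
  rw [hn]
  exact hm n

end Pairing

end Pool.Agent.TH488.HWG
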