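import Mathlib
import Pool.Agent.TH488.HWG.Pair

set_option autoImplicit false

/-! The projection to `X ⊗[T] M`, and the finiteness facts. -/

namespace Pool.Agent.TH488.HWG

open Function TensorProduct Polynomial
open Pool.Agent.TH488.HW
open Pool.Agent.H578R3.TorRigid (algSub proj_trans proj_trans' artinian_quot artinian_of_killed)

universe u

set_option linter.unusedSectionVars false
set_option linter.style.haveILetI false

section QT

variable {T : Type u} [CommRing T] {V : Subring T}
variable (X M : Type*) [AddCommGroup X] [Module T X] [AddCommGroup M] [Module T M]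

attribute [local instance] envModule

/-- The projection `X ⊗[V] M → X ⊗[T] M`. -/
noncomputable def qT (V : Subring T) (X M : Type*) [AddCommGroup X] [Module T X] [AddCommGroup M]
    [Module T M] : X ⊗[V] M →+ X ⊗[T] M :=
  TensorProduct.liftAddHom
      { toFun := fun q =>
          { toFun := fun m => q ⊗ₜ[T] m
            map_zero' := TensorProduct.tmul_zero _ _
            map_add' := fun x y => TensorProduct.tmul_add _ _ _ }
        map_zero' := by ext m; exact TensorProduct.zero_tmul _ _
        map_add' := fun x y => by ext m; exact TensorProduct.add_tmul _ _ _ }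
      (fun r q m => TensorProduct.smul_tmul (r : T) q m)

theorem qT_tmul (x : X) (m : M) : qT V X M (x ⊗ₜ m) = x ⊗ₜ m := rfl

theorem qT_surjective : Surjective (qT V X M) := by
  intro z
  induction z using TensorProduct.induction_on with
  | zero => exact ⟨0, map_zero _⟩
  | tmul x m => exact ⟨x ⊗ₜ m, rfl⟩
  | add x y hx hy =>
    obtain ⟨a, rfl⟩ := hx
    obtain ⟨b, rfl⟩ := hy
    exact ⟨a + b, map_add _ _ _⟩

theorem qT_zero_iff (z : X ⊗[V] M) :
    z ∈ JJ V ⊤ • (⊤ : Submodule (T ⊗[V] T) (X ⊗[V] M)) ↔ qT V X M z = 0 := by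
  rw [mem_iff (le_top : V ≤ ⊤)]
  obtain ⟨c, hc, hci⟩ := top_compare T M X
  have h1 : ∀ z, qT V X M z = c (qA (le_top : V ≤ ⊤) X M z) := by
    intro z
    induction z using TensorProduct.induction_on with
    | zero => simp only [map_zero]
    | add x y hx hy => simp only [map_add, hx, hy]
    | tmul x m => rw [qT_tmul, qA_tmul, hc]
  rw [h1]
  constructor
  · intro h; rw [h, map_zero]
  · intro h; exact hci (by rw [h, map_zero])

theorem qT_smul (p : T ⊗[V] T) (z : X ⊗[V] M) :
    qT V X M (p • z) = Algebra.TensorProduct.lmul' V p • qT V X M z := by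
  induction p using TensorProduct.induction_on with
  | zero => rw [zero_smul, map_zero, map_zero, zero_smul]
  | add p q hp hq => rw [add_smul, map_add, map_add, add_smul, hp, hq]
  | tmul s t =>
    induction z using TensorProduct.induction_on with
    | zero => rw [smul_zero, map_zero, smul_zero]
    | add x y hx hy => rw [smul_add, map_add, map_add, smul_add, hx, hy]
    | tmul x m =>
      rw [env_smul, qT_tmul, qT_tmul, Algebra.TensorProduct.lmul'_apply_tmul, mul_smul,
        TensorProduct.tmul_smul, TensorProduct.smul_tmul']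
      rw [TensorProduct.smul_tmul', smul_comm, TensorProduct.smul_tmul']

theorem qT_envMap {Y : Type*} [AddCommGroup Y] [Module T Y] (f : X →ₗ[T] Y) (z : X ⊗[V] M) :
    qT V Y M (envMap M f z) = LinearMap.rTensor M f (qT V X M z) := by
  induction z using TensorProduct.induction_on with
  | zero => simp only [map_zero]
  | add x y hx hy => simp only [map_add, hx, hy]
  | tmul x m => rfl

/-- The multiplicative set of elements of the enveloping ring whose product lies in `S`. -/
def WW (V : Subring T) (S : Submonoid T) : Submonoid (T ⊗[V] T) :=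
  S.comap (Algebra.TensorProduct.lmul' V : T ⊗[V] T →ₐ[V] T)

theorem mem_WW (S : Submonoid T) (p : T ⊗[V] T) :
    p ∈ WW V S ↔ Algebra.TensorProduct.lmul' V p ∈ S := Iff.rfl

theorem lmul_JJ (p : T ⊗[V] T) (hp : p ∈ JJ V ⊤) : Algebra.TensorProduct.lmul' V p = 0 := by
  have h : JJ V ⊤ ≤ RingHom.ker (Algebra.TensorProduct.lmul' V : T ⊗[V] T →ₐ[V] T) := by
    rw [JJ, Ideal.span_le]
    rintro _ ⟨a, -, rfl⟩
    rw [SetLike.mem_coe, RingHom.mem_ker, map_sub, Algebra.TensorProduct.lmul'_apply_tmul,
      Algebra.TensorProduct.lmul'_apply_tmul, mul_one, one_mul, sub_self]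
  exact h hp

theorem WW_add (S : Submonoid T) (w : T ⊗[V] T) (hw : w ∈ WW V S) (p : T ⊗[V] T)
    (hp : p ∈ JJ V ⊤) : w + p ∈ WW V S := by
  rw [mem_WW, map_add, lmul_JJ p hp, add_zero]
  exact hw

theorem JJ_self : JJ V V = ⊥ := by
  rw [eq_bot_iff, JJ, Ideal.span_le]
  rintro _ ⟨a, ha, rfl⟩
  rw [SetLike.mem_coe, Ideal.mem_bot, sub_eq_zero]
  have h1 : a = (⟨a, ha⟩ : V) • (1 : T) := (mul_one a).symm
  rw [h1, TensorProduct.smul_tmul]

end QT

section Fin

theorem artin_quot (V : Type*) {P D : Type*} [CommRing V] [CommRing P] [Algebra V P] [AddCommGroup D]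
    [Module V D] [Module P D] [IsScalarTower V P D] [Module.Finite V D] (R : Submodule P D) (a : V)
    [IsArtinianRing (V ⧸ Ideal.span {a})] (h : ∀ z : D, a • z ∈ R) : IsArtinian P (D ⧸ R) := by
  let g : D →ₗ[V] D ⧸ R := 
    { toFun := fun x => Submodule.Quotient.mk x
      map_add' := fun x y => rfl
      map_smul' := fun x y => rfl }
  have hg : Function.Surjective g := fun z => Submodule.Quotient.mk_surjective _ z
  have hfin : Module.Finite V (D ⧸ R) := Module.Finite.of_surjective g hg
  have hkill' : ∀ z : D ⧸ R, a • z = 0 := by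
    intro z
    obtain ⟨z, rfl⟩ := hg z
    rw [← map_smul]
    exact (Submodule.Quotient.mk_eq_zero _).2 (h z)
  have h2 : IsArtinian V (D ⧸ R) := artinian_of_killed V _ a hkill'
  exact isArtinian_of_tower V h2

/-- The localized quotient is Artinian. -/
theorem artin_gen {V P D : Type*} [CommRing V] [IsNoetherianRing V] [CommRing P] [Algebra V P]
    [AddCommGroup D] [Module V D] [Module P D] [IsScalarTower V P D] [Module.Finite V D]
    (W : Submonoid P) {R : Submodule P D} (w : P) (hw : w ∈ W) (a : V)
    [IsArtinianRing (V ⧸ Ideal.span {a})] (h : ∀ z : D, a • (w • z) ∈ R) :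
    IsArtinian (Localization W) (LocalizedModule W (D ⧸ R)) := by
  apply artin_of_mul W w hw
  haveI : IsArtinian P (LinearMap.range (LinearMap.lsmul P (D ⧸ R) w)) := by
    -- a quotient of `D ⧸ (a • w)⁻¹ R`
    let Q : Submodule P D := R.comap (LinearMap.lsmul P D w)
    have h1 : IsArtinian P (D ⧸ Q) := artin_quot V Q a (fun z => by
      rw [Submodule.mem_comap, LinearMap.lsmul_apply, smul_comm]
      exact h z)
    let g : D ⧸ Q →ₗ[P] D ⧸ R := Q.mapQ R (LinearMap.lsmul P D w) le_rfl
    have hg : LinearMap.range (LinearMap.lsmul P (D ⧸ R) w) = LinearMap.range g := by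
      ext y
      constructor
      · rintro ⟨x, rfl⟩
        obtain ⟨x, rfl⟩ := Submodule.Quotient.mk_surjective _ x
        exact ⟨Submodule.Quotient.mk x, rfl⟩
      · rintro ⟨x, rfl⟩
        obtain ⟨x, rfl⟩ := Submodule.Quotient.mk_surjective _ x
        exact ⟨Submodule.Quotient.mk x, rfl⟩
    rw [hg]
    exact isArtinian_of_surjective _ g.rangeRestrict g.surjective_rangeRestrict
  exact isArtinian_loc W _

variable {T : Type u} [CommRing T] {V : Subring T} [IsDedekindDomain V] [Module.Finite V T]
variable (X M : Type*) [AddCommGroup X] [Module T X] [AddCommGroup M] [Module T M]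
  [Module.Finite T X] [Module.Finite T M]

attribute [local instance] envModule

theorem noeth_env : IsNoetherian (T ⊗[V] T) (X ⊗[V] M) := by
  haveI : Module.Finite V X := Module.Finite.trans T X
  haveI : Module.Finite V M := Module.Finite.trans T M
  haveI := env_tower (V := V) (T := T) (X := X) (M := M)
  exact isNoetherian_of_tower V inferInstance

variable {X} {N : Type*} [AddCommGroup N] [Module T N] (f : N →ₗ[T] X) (s : X →ₗ[T] N)
  (t₀ : T) (a : V)

theorem env_kill (hfs : ∀ y, f (s y) = (t₀ * (a : T)) • y) (z : X ⊗[V] M) :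
    a • ((t₀ ⊗ₜ[V] (1 : T)) • z) ∈ LinearMap.range (envMap (V := V) M f) := by
  refine ⟨envMap M s z, ?_⟩
  induction z using TensorProduct.induction_on with
  | zero => rw [map_zero, map_zero, smul_zero, smul_zero]
  | add x y hx hy => rw [map_add, map_add, hx, hy, smul_add, smul_add]
  | tmul y m =>
    rw [env_smul, one_smul]
    change f (s y) ⊗ₜ[V] m = a • ((t₀ • y) ⊗ₜ[V] m)
    rw [hfs, TensorProduct.smul_tmul', mul_comm, mul_smul]
    rfl

theorem artin_env (W : Submonoid (T ⊗[V] T)) (hw : t₀ ⊗ₜ[V] (1 : T) ∈ W) (ha : a ≠ 0)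
    (hfs : ∀ y, f (s y) = (t₀ * (a : T)) • y) :
    IsArtinian (Localization W)
      (LocalizedModule W ((X ⊗[V] M) ⧸ LinearMap.range (envMap (V := V) M f))) := by
  haveI : Module.Finite V X := Module.Finite.trans T X
  haveI : Module.Finite V M := Module.Finite.trans T M
  haveI := env_tower (V := V) (T := T) (X := X) (M := M)
  haveI hart : IsArtinianRing (V ⧸ Ideal.span {a}) := by
    refine artinian_quot _ (Or.inl ?_)
    rw [Ne, Ideal.span_singleton_eq_bot]
    exact ha
  exact artin_gen W _ hw a (fun z => env_kill M f s t₀ a hfs z)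

end Fin

end Pool.Agent.TH488.HWG
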