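import Mathlib
import Pool.Agent.TH488.HWG.CoreA

set_option autoImplicit false

/-! The extension of the functional and the core theorem. -/

namespace Pool.Agent.TH488.HWG

open Function TensorProduct Polynomial
open Pool.Agent.TH488.HW
open Pool.Agent.H578R3.TorRigid (algSub proj_trans proj_trans' artinian_quot artinian_of_killed eE
  eE_tmul)

universe u

set_option linter.unusedSectionVars false
set_option linter.style.haveILetI false

section Unif

variable {P D : Type*} [CommRing P] [AddCommGroup D] [Module P D] [IsNoetherian P D]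

/-- A uniform multiplier. -/
theorem uniform (W : Submonoid P) (E G : Submodule P D) (h : ∀ z ∈ E, ∃ w ∈ W, w • z ∈ G) :
    ∃ w ∈ W, ∀ z ∈ E, w • z ∈ G := by
  classical
  obtain ⟨S, hS⟩ := IsNoetherian.noetherian E
  have h1 : ∀ z : S, ∃ w ∈ W, w • (z : D) ∈ G := fun z =>
    h z (by rw [← hS]; exact Submodule.subset_span z.2)
  choose w hw hz using h1
  refine ⟨∏ z : S, w z, W.prod_mem fun z _ => hw z, ?_⟩
  intro z hzE
  rw [← hS] at hzE
  induction hzE using Submodule.span_induction with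
  | mem x hx =>
    have : (∏ z : S, w z) = (∏ z ∈ Finset.univ.erase ⟨x, hx⟩, w z) * w ⟨x, hx⟩ :=
      (Finset.prod_erase_mul _ _ (Finset.mem_univ _)).symm
    rw [this, mul_smul]
    exact G.smul_mem _ (hz ⟨x, hx⟩)
  | zero => rw [smul_zero]; exact G.zero_mem
  | add x y _ _ hx hy => rw [smul_add]; exact G.add_mem hx hy
  | smul a x _ hx => rw [smul_comm]; exact G.smul_mem _ hx

end Unif

section Extend

/-- Extension of a functional along multiplication by `c`. -/
theorem extend {V P D : Type*} [CommRing V] [IsDedekindDomain V] [CommRing P] [Algebra V P]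
    [AddCommGroup D] [Module V D] [Module P D] [IsScalarTower V P D] [Module.Finite V D]
    (W : Submonoid P) (I : Ideal P) (c : P)
    (hker : ∀ n : D, c • n = 0 → ∃ w ∈ W, w • n ∈ I • (⊤ : Submodule P D))
    (hcok : ∀ v : V, v ≠ 0 → ∀ n n' : D, v • n = c • n' → ∃ w ∈ W, ∃ n'', w • n = c • n'')
    (φ : D →ₗ[V] V) (hφ : ∀ z ∈ I • (⊤ : Submodule P D), φ z = 0) :
    ∃ Θ : D →ₗ[V] V, ∃ w ∈ W, ∀ y, Θ (c • y) = φ (w • y) := by
  haveI : IsNoetherian P D := isNoetherian_of_tower V inferInstance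
  -- the saturation
  let E : Submodule P D :=
    { carrier := {z | ∃ v : V, v ≠ 0 ∧ ∃ y, v • z = c • y}
      zero_mem' := ⟨1, one_ne_zero, 0, by rw [smul_zero, smul_zero]⟩
      add_mem' := by
        rintro z z' ⟨v, hv, y, hy⟩ ⟨v', hv', y', hy'⟩
        refine ⟨v * v', mul_ne_zero hv hv', v' • y + v • y', ?_⟩
        rw [smul_add, mul_smul v v' z', hy', mul_comm v v', mul_smul v' v z, hy, smul_add,
          smul_comm v' c y, smul_comm v c y']
      smul_mem' := by
        rintro p z ⟨v, hv, y, hy⟩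
        exact ⟨v, hv, p • y, by rw [smul_comm, hy, smul_comm]⟩ }
  have hE : ∀ z, z ∈ E ↔ ∃ v : V, v ≠ 0 ∧ ∃ y, v • z = c • y := fun z => Iff.rfl
  let G : Submodule P D := LinearMap.range (LinearMap.lsmul P D c)
  have hG : ∀ z, z ∈ G ↔ ∃ y, c • y = z := fun z => Iff.rfl
  let K : Submodule P D := LinearMap.ker (LinearMap.lsmul P D c)
  have hK : ∀ z, z ∈ K ↔ c • z = 0 := fun z => Iff.rfl
  obtain ⟨w, hw, hwE⟩ := uniform W E G (by
    rintro z ⟨v, hv, y, hy⟩
    obtain ⟨w, hw, n, hn⟩ := hcok v hv z y hy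
    exact ⟨w, hw, n, hn.symm⟩)
  obtain ⟨w', hw', hwK⟩ := uniform W K (I • (⊤ : Submodule P D)) (by
    intro z hz
    exact hker z hz)
  have hy : ∀ z : E.restrictScalars V, ∃ y, c • y = w • (z : D) := fun z => hwE z z.2
  choose Y hY using hy
  have huniq : ∀ y y' : D, c • y = c • y' → φ (w' • y) = φ (w' • y') := by
    intro y y' h
    rw [← sub_eq_zero, ← map_sub, ← smul_sub]
    apply hφ
    apply hwK
    rw [hK, smul_sub, h, sub_self]
  let Θ₁ : (E.restrictScalars V) →ₗ[V] V :=
    { toFun := fun z => φ (w' • Y z)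
      map_add' := by
        intro z z'
        rw [← map_add, ← smul_add]
        apply huniq
        rw [smul_add, hY, hY, hY, ← smul_add]
        rfl
      map_smul' := by
        intro v z
        rw [RingHom.id_apply, ← map_smul, smul_comm v w']
        apply huniq
        rw [hY, smul_comm c v, hY, smul_comm v w]
        rfl }
  have hΘ₁ : ∀ (z : E.restrictScalars V) (y : D), c • y = w • (z : D) → Θ₁ z = φ (w' • y) := by
    intro z y hy
    apply huniq
    rw [hY, hy]
  obtain ⟨r, hr⟩ := exists_retraction (V := V) (E.restrictScalars V).subtype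
    (Submodule.subtype_injective _) (by
      rintro v y hv ⟨⟨z, hz⟩, hzy⟩
      change z = v • y at hzy
      subst hzy
      obtain ⟨v', hv', y', hy'⟩ := (hE _).1 hz
      refine ⟨⟨y, (hE y).2 ⟨v' * v, mul_ne_zero hv' hv, y', ?_⟩⟩, rfl⟩
      rw [mul_smul, hy'])
  refine ⟨Θ₁ ∘ₗ r, w' * w, W.mul_mem hw' hw, fun y => ?_⟩
  have hcy : c • y ∈ E := (hE _).2 ⟨1, one_ne_zero, y, one_smul _ _⟩
  have h1 := hr ⟨c • y, hcy⟩
  have h2 : r (c • y) = ⟨c • y, hcy⟩ := h1
  rw [LinearMap.comp_apply, h2, hΘ₁ _ (w • y) (by rw [smul_comm]), mul_smul]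

end Extend

end Pool.Agent.TH488.HWG
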