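import Mathlib
import Pool.Agent.TH488.HWG.CoreB

set_option autoImplicit false

/-! The core theorem. -/

namespace Pool.Agent.TH488.HWG

open Function TensorProduct Polynomial
open Pool.Agent.TH488.HW
open Pool.Agent.H578R3.TorRigid (algSub proj_trans proj_trans' artinian_quot artinian_of_killed eE
  eE_tmul)

universe u

set_option linter.unusedSectionVars false
set_option linter.style.haveILetI false

section Higman

variable {T : Type u} [CommRing T] {V : Subring T}
variable {M : Type*} [AddCommGroup M] [Module T M]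

/-- The operator `Σ aᵢ ⊗ h (bᵢ m)`. -/
noncomputable def hig (h : M →ₗ[V] M) : T ⊗[V] T →ₗ[V] (M →ₗ[V] T ⊗[V] M) :=
  TensorProduct.lift
    { toFun := fun a =>
        { toFun := fun b => (TensorProduct.mk V T M a) ∘ₗ h ∘ₗ (Algebra.lsmul V V M b)
          map_add' := fun b b' => by
            rw [map_add, LinearMap.comp_add, LinearMap.comp_add]
          map_smul' := fun v b => by
            rw [map_smul, LinearMap.comp_smul, LinearMap.comp_smul, RingHom.id_apply] }
      map_add' := fun a a' => by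
        ext b m
        change (a + a') ⊗ₜ[V] _ = a ⊗ₜ[V] _ + a' ⊗ₜ[V] _
        exact TensorProduct.add_tmul _ _ _
      map_smul' := fun v a => by
        ext b m
        change (v • a) ⊗ₜ[V] _ = v • (a ⊗ₜ[V] _)
        rw [TensorProduct.smul_tmul'] }

theorem hig_tmul (h : M →ₗ[V] M) (a b : T) (m : M) :
    hig h (a ⊗ₜ b) m = a ⊗ₜ (h (b • m)) := rfl

theorem hig_left (h : M →ₗ[V] M) (p : T ⊗[V] T) (t : T) (m : M) :
    hig h ((t ⊗ₜ 1) * p) m = t • hig h p m := by
  induction p using TensorProduct.induction_on with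
  | zero => rw [mul_zero, map_zero, LinearMap.zero_apply, smul_zero]
  | add p q hp hq => rw [mul_add, map_add, map_add, LinearMap.add_apply, LinearMap.add_apply,
      smul_add, hp, hq]
  | tmul a b =>
    rw [Algebra.TensorProduct.tmul_mul_tmul, one_mul, hig_tmul, hig_tmul, TensorProduct.smul_tmul',
      smul_eq_mul]

theorem hig_right (h : M →ₗ[V] M) (p : T ⊗[V] T) (t : T) (m : M) :
    hig h (((1 : T) ⊗ₜ t) * p) m = hig h p (t • m) := by
  induction p using TensorProduct.induction_on with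
  | zero => rw [mul_zero, map_zero, LinearMap.zero_apply, LinearMap.zero_apply]
  | add p q hp hq => rw [mul_add, map_add, map_add, LinearMap.add_apply, LinearMap.add_apply,
      hp, hq]
  | tmul a b =>
    rw [Algebra.TensorProduct.tmul_mul_tmul, one_mul, hig_tmul, hig_tmul, mul_comm, mul_smul]

end Higman

section Core

variable {T : Type u} [CommRing T] {V : Subring T}

attribute [local instance] envModule

theorem env_V (v : V) {X M : Type*} [AddCommGroup X] [Module T X] [AddCommGroup M] [Module T M]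
    (n : X ⊗[V] M) : ((v : T) ⊗ₜ[V] (1 : T)) • n = v • n := by
  haveI := env_tower (V := V) (T := T) (X := X) (M := M)
  have : (v : T) ⊗ₜ[V] (1 : T) = algebraMap V (T ⊗[V] T) v := rfl
  rw [this, algebraMap_smul]

theorem inj_top_env {M N F : Type*} [AddCommGroup M] [Module T M]
    [AddCommGroup N] [Module T N] [AddCommGroup F] [Module T F] (f : N →ₗ[T] F) (s : F →ₗ[T] N)
    (S : Submonoid T) (t₀ : T) (ht₀ : t₀ ∈ S)
    (a : V) (hsf : ∀ n, s (f n) = (t₀ * (a : T)) • n)
    (hT : ∀ z : N ⊗[T] M, (a : T) • z = 0 → ∃ t ∈ S, t • z = 0)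
    (n : N ⊗[V] M) (hn : envMap M f n ∈ JJ V ⊤ • (⊤ : Submodule (T ⊗[V] T) (F ⊗[V] M))) :
      ∃ w ∈ WW V S, w • n ∈ JJ V ⊤ • (⊤ : Submodule (T ⊗[V] T) (N ⊗[V] M)) := by
  rw [qT_zero_iff, qT_envMap] at hn
  have h1 : (a : T) • (t₀ • qT V _ M n) = 0 := by
    have : LinearMap.rTensor M s (LinearMap.rTensor M f (qT V _ M n)) =
        (a : T) • (t₀ • qT V _ M n) := by
      rw [← LinearMap.comp_apply, ← LinearMap.rTensor_comp]
      have : s ∘ₗ f = (t₀ * (a : T)) • LinearMap.id := LinearMap.ext hsf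
      rw [this, LinearMap.rTensor_smul, LinearMap.rTensor_id, mul_comm, smul_smul]
      rfl
    rw [← this, hn, map_zero]
  obtain ⟨t, ht, h2⟩ := hT _ h1
  refine ⟨(t * t₀) ⊗ₜ 1, ?_, ?_⟩
  · rw [mem_WW, Algebra.TensorProduct.lmul'_apply_tmul, mul_one]
    exact S.mul_mem ht ht₀
  · rw [qT_zero_iff, qT_smul, Algebra.TensorProduct.lmul'_apply_tmul, mul_one, mul_smul]
    exact h2

/-- The Casimir element together with its two properties. -/
theorem casimir [Nontrivial T] [IsDedekindDomain V] (hV : Relation.ReflTransGen (Mono T) V ⊤)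
    {M N F : Type*} [AddCommGroup M] [Module T M] [Module.Finite T M]
    [AddCommGroup N] [Module T N] [Module.Finite T N]
    [AddCommGroup F] [Module T F] [Module.Finite T F] [Module.Projective T F]
    (htf : ∀ v : V, v ≠ 0 → ∀ m : M, v • m = 0 → m = 0)
    (f : N →ₗ[T] F) (s : F →ₗ[T] N) (S : Submonoid T) (t₀ : T) (ht₀ : t₀ ∈ S)
    (a : V) (ha : a ≠ 0) (hsf : ∀ n, s (f n) = (t₀ * (a : T)) • n)
    (hfs : ∀ y, f (s y) = (t₀ * (a : T)) • y)
    (hT : ∀ z : N ⊗[T] M, (a : T) • z = 0 → ∃ t ∈ S, t • z = 0) :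
    ∃ c : T ⊗[V] T, (∀ t : T, (t ⊗ₜ[V] (1 : T)) * c = ((1 : T) ⊗ₜ[V] t) * c) ∧
      (∀ n : N ⊗[V] M, c • n = 0 → ∃ w ∈ WW V S,
        w • n ∈ JJ V ⊤ • (⊤ : Submodule (T ⊗[V] T) (N ⊗[V] M))) ∧
      (∀ v : V, v ≠ 0 → ∀ n n' : N ⊗[V] M, v • n = c • n' →
        ∃ w ∈ WW V S, ∃ n'', w • n = c • n'') := by
  obtain ⟨hproj, hfin⟩ := tower_finite V hV
  have e1 : IsNoetherian (T ⊗[V] T) (N ⊗[V] M) := noeth_env N M
  have e2 : IsNoetherian (T ⊗[V] T) (F ⊗[V] M) := noeth_env F M
  have hw₀ : t₀ ⊗ₜ[V] (1 : T) ∈ WW V S := by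
    rw [mem_WW, Algebra.TensorProduct.lmul'_apply_tmul, mul_one]
    exact ht₀
  have e3 : IsArtinian (Localization (WW V S))
      (LocalizedModule (WW V S) ((F ⊗[V] M) ⧸ LinearMap.range (envMap (V := V) M f))) :=
    artin_env M f s t₀ a _ hw₀ ha hfs
  have e4 : IsNoetherian (T ⊗[V] T) ((F ⊗[V] M) ⧸ LinearMap.range (envMap (V := V) M f)) :=
    isNoetherian_of_surjective _ (Submodule.range_mkQ (LinearMap.range (envMap (V := V) M f)))
  obtain ⟨-, c, hc1, hc2, hc3⟩ := chainG (V := V) f (WW V S) (fun w hw p hp => WW_add S w hw p hp)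
    e3 htf (inj_top_env f s S t₀ ht₀ a hsf hT) V hV le_rfl
  rw [JJ_self] at hc1 hc2 hc3
  refine ⟨c, ?_, ?_, ?_⟩
  · intro t
    have h1 := hc1 _ (mem_JJ_of (V := V) (A := ⊤) (a := t) trivial)
    rw [Ideal.mem_bot, mul_sub, sub_eq_zero] at h1
    rw [mul_comm, h1, mul_comm]
  · intro n hn
    exact hc2 n (by rw [hn]; exact Submodule.zero_mem _)
  · intro v hv n n' hn
    obtain ⟨w, hw, n'', hn''⟩ := hc3 _ ⟨v, hv, rfl⟩ n n' (by
      rw [env_V, hn, sub_self]
      exact Submodule.zero_mem _)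
    refine ⟨w, hw, n'', ?_⟩
    rw [Submodule.bot_smul, Submodule.mem_bot, sub_eq_zero] at hn''
    exact hn''

end Core

end Pool.Agent.TH488.HWG
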