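import Mathlib
import Pool.Agent.TH488.HWG.CoreC

set_option autoImplicit false

/-! The core theorem. -/

namespace Pool.Agent.TH488.HWG

open Function TensorProduct Polynomial
open Pool.Agent.TH488.HW
open Pool.Agent.H578R3.TorRigid (algSub proj_trans proj_trans' artinian_quot artinian_of_killed eE
  eE_tmul)

universe u

set_option linter.unusedSectionVars false
set_option linter.style.haveILetI false
set_option warn.classDefReducibility false

section Phi

variable {T : Type u} [CommRing T] {V : Subring T} (l : T →ₗ[V] V)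
variable {M N : Type*} [AddCommGroup M] [Module T M] [AddCommGroup N] [Module T N]
variable (pr : N →ₗ[T] M →ₗ[T] T)

attribute [local instance] envModule

/-- The functional `n ⊗ m ↦ l (n m)`. -/
noncomputable def phi : N ⊗[V] M →ₗ[V] V :=
  TensorProduct.lift
    { toFun := fun n =>
        { toFun := fun m => bt l pr n m
          map_add' := map_add _
          map_smul' := fun v m => bt_smul_right l pr v n m }
      map_add' := fun x y => by
        apply LinearMap.ext
        intro m
        change bt l pr (x + y) m = bt l pr x m + bt l pr y m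
        rw [map_add, AddMonoidHom.add_apply]
      map_smul' := fun v x => by
        apply LinearMap.ext
        intro m
        exact bt_smul l pr v x m }

theorem phi_tmul (n : N) (m : M) : phi l pr (n ⊗ₜ m) = bt l pr n m := rfl

theorem phi_smul (p : T ⊗[V] T) (n : N) (m : M) :
    phi l pr (p • (n ⊗ₜ m)) = bt l pr n (Algebra.TensorProduct.lmul' V p • m) := by
  induction p using TensorProduct.induction_on with
  | zero => rw [zero_smul, map_zero, map_zero, zero_smul, map_zero]
  | add p q hp hq => rw [add_smul, map_add, map_add, add_smul, map_add, hp, hq]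
  | tmul a b =>
    rw [env_smul, phi_tmul, Algebra.TensorProduct.lmul'_apply_tmul, mul_smul]
    exact bt_bal l pr a n (b • m)

theorem phi_zero (z : N ⊗[V] M)
    (hz : z ∈ JJ V ⊤ • (⊤ : Submodule (T ⊗[V] T) (N ⊗[V] M))) : phi l pr z = 0 := by
  let φT : N ⊗[T] M →+ V := TensorProduct.liftAddHom (bt l pr)
    (fun v n m => bt_bal l pr v n m)
  have h1 : ∀ z, phi l pr z = φT (qT V _ M z) := by
    intro z
    induction z using TensorProduct.induction_on with
    | zero => rw [map_zero, map_zero, map_zero]
    | tmul n m => rfl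
    | add x y hx hy => rw [map_add, map_add, map_add, hx, hy]
  rw [qT_zero_iff] at hz
  rw [h1, hz, map_zero]

end Phi

section Core

variable {T : Type u} [CommRing T] {V : Subring T} (l : T →ₗ[V] V)
variable {M N : Type*} [AddCommGroup M] [Module T M] [AddCommGroup N] [Module T N]
variable (pr : N →ₗ[T] M →ₗ[T] T)

attribute [local instance] envModule

/-- The endomorphism defined by a functional on `M^* ⊗ M`. -/
theorem exists_endo [IsDedekindDomain V]
    (hls : ∀ φ : T →ₗ[V] V, ∃ r : T, ∀ s, φ s = l (r * s))
    (hln : ∀ r : T, (∀ s, l (r * s) = 0) → r = 0)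
    (hpr : Function.Bijective pr) [Module.Finite V M] [Module.Projective V M]
    (Θ : N ⊗[V] M →ₗ[V] V) :
    ∃ h : M →ₗ[V] M, ∀ n m, Θ (n ⊗ₜ m) = bt l pr n (h m) := by
  have hh : ∀ m : M, ∃ m' : M, ∀ n, Θ (n ⊗ₜ m) = bt l pr n m' := by
    intro m
    exact bt_perf l pr hls hln hpr
      { toFun := fun n => Θ (n ⊗ₜ m)
        map_add' := fun x y => by rw [TensorProduct.add_tmul, map_add]
        map_smul' := fun v x => by
          rw [← TensorProduct.smul_tmul', map_smul]; rfl }
  choose h hh using hh
  have huniq : ∀ m m' : M, (∀ n, bt l pr n m = bt l pr n m') → m = m' := by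
    intro m m' hmm
    rw [← sub_eq_zero]
    apply bt_nd l pr hls hln hpr
    intro n
    rw [map_sub, sub_eq_zero]
    exact hmm n
  exact ⟨{ toFun := h
           map_add' := by
            intro x y
            apply huniq
            intro n
            rw [map_add, ← hh, ← hh, ← hh, TensorProduct.tmul_add, map_add]
           map_smul' := by
            intro v x
            apply huniq
            intro n
            rw [RingHom.id_apply, bt_smul_right, ← bt_smul, ← hh, ← hh, TensorProduct.smul_tmul] },
            fun n m => hh m n⟩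

theorem bt_hig (Θ : N ⊗[V] M →ₗ[V] V) (h : M →ₗ[V] M)
    (hh : ∀ n m, Θ (n ⊗ₜ m) = bt l pr n (h m)) (n : N) (m : M) (p : T ⊗[V] T) :
    bt l pr n (eE (A := V) (B := T) M (hig h p m)) = Θ (p • (n ⊗ₜ m)) := by
  induction p using TensorProduct.induction_on with
  | zero => rw [map_zero, LinearMap.zero_apply, map_zero, map_zero, zero_smul, map_zero]
  | add p q hp hq => rw [map_add, LinearMap.add_apply, map_add, map_add, hp, hq, add_smul, map_add]
  | tmul a b =>
    rw [hig_tmul, eE_tmul, env_smul, hh]
    exact (bt_bal l pr a n (h (b • m))).symm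

theorem coreG [Nontrivial T] [IsDedekindDomain V] (hV : Relation.ReflTransGen (Mono T) V ⊤)
    [Module.Finite T M] [Module.Finite T N] (hpr : Function.Bijective pr)
    (htf : ∀ v : V, v ≠ 0 → ∀ m : M, v • m = 0 → m = 0)
    {F : Type*} [AddCommGroup F] [Module T F] [Module.Finite T F] [Module.Projective T F]
    (f : N →ₗ[T] F) (s : F →ₗ[T] N) (S : Submonoid T) (t₀ : T) (ht₀ : t₀ ∈ S)
    (a : V) (ha : a ≠ 0) (hsf : ∀ n, s (f n) = (t₀ * (a : T)) • n)
    (hfs : ∀ y, f (s y) = (t₀ * (a : T)) • y)
    (hT : ∀ z : N ⊗[T] M, (a : T) • z = 0 → ∃ t ∈ S, t • z = 0) :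
    ∃ t ∈ S, ∃ σ : M →ₗ[T] T ⊗[V] M, ∀ m, eE (A := V) (B := T) M (σ m) = t • m := by
  obtain ⟨hproj, hfin⟩ := tower_finite V hV
  obtain ⟨l, hls, hln⟩ := tower_frob V hV
  haveI : Module.Finite V M := Module.Finite.trans T M
  haveI : Module.Finite V N := Module.Finite.trans T _
  haveI hMV : Module.Projective V M := by
    apply projective_of_tf
    intro v y hy
    by_cases hv : v = 0
    · exact Or.inl hv
    · exact Or.inr (htf v hv y hy)
  obtain ⟨c, hcomm, hker, hcok⟩ := casimir hV htf f s S t₀ ht₀ a ha hsf hfs hT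
  haveI := env_tower (V := V) (T := T) (X := N) (M := M)
  obtain ⟨Θ, w, hw, hΘ⟩ := extend (V := V) (D := N ⊗[V] M) (WW V S) (JJ V ⊤) c
    hker hcok (phi l pr) (phi_zero l pr)
  obtain ⟨h, hh⟩ := exists_endo l pr hls hln hpr Θ
  let σ : M →ₗ[T] T ⊗[V] M :=
    { toFun := fun m => hig h c m
      map_add' := map_add _
      map_smul' := fun t m => by
        rw [RingHom.id_apply, ← hig_left, hcomm, hig_right] }
  refine ⟨Algebra.TensorProduct.lmul' V w, hw, σ, fun m => ?_⟩
  rw [← sub_eq_zero]
  apply bt_nd l pr hls hln hpr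
  intro n
  rw [map_sub, sub_eq_zero]
  change bt l pr n (eE (A := V) (B := T) M (hig h c m)) = _
  rw [bt_hig l pr Θ h hh, hΘ, phi_smul]

end Core

end Pool.Agent.TH488.HWG
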