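import Mathlib
import Pool.Agent.TH488.HWG.CoreD

set_option autoImplicit false

/-! Localizations of towers that are domains. -/

namespace Pool.Agent.TH488.HWG

open Function TensorProduct Polynomial
open Pool.Agent.TH488.HW
open Pool.Agent.H578R3.TorRigid (algSub proj_trans proj_trans' artinian_quot artinian_of_killed eE
  eE_tmul)

universe u v

set_option linter.unusedSectionVars false
set_option linter.style.haveILetI false

section Lattice

variable {T : Type*} [CommRing T] (S : Submonoid T) {R : Type*} [CommRing R] [Algebra T R]
  [IsLocalization S R] (M : Type*) [AddCommGroup M] [Module R M] [Module T M] [IsScalarTower T R M]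

/-- The inclusion of a lattice is a localization map. -/
theorem lattice_loc (X : Set M) (hX : Submodule.span R X = ⊤) :
    IsLocalizedModule S (Submodule.span T X).subtype where
  map_units s := by
    rw [Module.End.isUnit_iff]
    have hs := IsLocalization.map_units R s
    constructor
    · intro x y hxy
      have e : ∀ z : M, (s : T) • z = (algebraMap T R s) • z :=
        fun z => (algebraMap_smul R (s : T) z).symm
      rw [Module.algebraMap_end_apply, Module.algebraMap_end_apply, e, e] at hxy
      exact hs.smul_left_cancel.1 hxy
    · intro y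
      obtain ⟨u, hu⟩ := hs
      refine ⟨(↑u⁻¹ : R) • y, ?_⟩
      rw [Module.algebraMap_end_apply, ← algebraMap_smul R, ← hu, smul_smul, Units.mul_inv, one_smul]
  surj m := by
    have hm : m ∈ Submodule.span R X := by rw [hX]; trivial
    have key : ∃ s ∈ S, s • m ∈ Submodule.span T X := by
      induction hm using Submodule.span_induction with
      | mem x hx => exact ⟨1, S.one_mem, by rw [one_smul]; exact Submodule.subset_span hx⟩
      | zero => exact ⟨1, S.one_mem, by rw [one_smul]; exact Submodule.zero_mem _⟩
      | add x y _ _ hx hy =>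
        obtain ⟨s, hs, hx⟩ := hx
        obtain ⟨t, ht, hy⟩ := hy
        refine ⟨s * t, S.mul_mem hs ht, ?_⟩
        rw [smul_add]
        refine Submodule.add_mem _ ?_ ?_
        · rw [mul_comm, mul_smul]; exact Submodule.smul_mem _ _ hx
        · rw [mul_smul]; exact Submodule.smul_mem _ _ hy
      | smul r x _ hx =>
        obtain ⟨s, hs, hx⟩ := hx
        obtain ⟨t, u, rfl⟩ := IsLocalization.exists_mk'_eq S r
        refine ⟨u * s, S.mul_mem u.2 hs, ?_⟩
        have h1 : ((u : T) * s) • (IsLocalization.mk' R t u) • x = t • s • x := by
          rw [mul_comm, mul_smul, ← smul_assoc (u : T), IsLocalization.smul_mk'_self,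
            algebraMap_smul, smul_comm]
        rw [h1]
        exact Submodule.smul_mem _ _ hx
    obtain ⟨s, hs, h1⟩ := key
    exact ⟨⟨⟨s • m, h1⟩, ⟨s, hs⟩⟩, rfl⟩
  exists_of_eq := fun {x y} hxy => ⟨1, by rw [one_smul, one_smul]; exact Subtype.ext hxy⟩

end Lattice

section Descend

variable {T : Type*} [CommRing T] (S : Submonoid T) (R : Type*) [CommRing R] [Algebra T R]
  [IsLocalization S R] {M : Type*} [AddCommGroup M] [Module R M] [Module T M] [IsScalarTower T R M]

/-- If `t` acts on a lattice through a projective module, the localization is projective. -/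
theorem projective_of_factor {M' Q : Type*} [AddCommGroup M'] [Module T M'] [AddCommGroup Q]
    [Module T Q] [Module.Projective T Q] (g : M' →ₗ[T] M) [IsLocalizedModule S g]
    (σ : M' →ₗ[T] Q) (μ : Q →ₗ[T] M') (t : T) (ht : t ∈ S) (h : ∀ m, μ (σ m) = t • m) :
    Module.Projective R M := by
  let j : Q →ₗ[T] R ⊗[T] Q := TensorProduct.mk T R Q 1
  haveI : IsLocalizedModule S j := IsLocalization.tensorProduct_isLocalizedModule S R
  let σR := IsLocalizedModule.mapExtendScalars S g j R σ
  let μR := IsLocalizedModule.mapExtendScalars S j g R μ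
  have h1 : ∀ m', σR (g m') = j (σ m') := fun m' => IsLocalizedModule.map_apply S g j σ m'
  have h2 : ∀ q, μR (j q) = g (μ q) := fun q => IsLocalizedModule.map_apply S j g μ q
  have h3 : ∀ m : M, μR (σR m) = (algebraMap T R t) • m := by
    have h4 : ((μR ∘ₗ σR).restrictScalars T) = (t • LinearMap.id : M →ₗ[T] M) := by
      apply IsLocalizedModule.ext S g (IsLocalizedModule.map_units g)
      apply LinearMap.ext
      intro m'
      change μR (σR (g m')) = t • g m'
      rw [h1, h2, h, map_smul]
    intro m
    have := LinearMap.congr_fun h4 m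
    rw [algebraMap_smul]
    exact this
  obtain ⟨u, hu⟩ := IsLocalization.map_units R (⟨t, ht⟩ : S)
  refine Module.Projective.of_split ((↑u⁻¹ : R) • σR) μR ?_
  apply LinearMap.ext
  intro m
  rw [LinearMap.comp_apply, LinearMap.smul_apply, map_smul, h3, LinearMap.id_apply, smul_smul]
  have : (↑u⁻¹ : R) * algebraMap T R t = 1 := by
    change (u : R) = algebraMap T R t at hu
    rw [← hu, Units.inv_mul]
  rw [this, one_smul]

end Descend

end Pool.Agent.TH488.HWG
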