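import Mathlib
import Pool.Agent.TH488.HWG.LocA

set_option autoImplicit false

/-! The Huneke–Wiegand property for localizations of towers that are domains. -/

namespace Pool.Agent.TH488.HWG

open Function TensorProduct Polynomial
open Pool.Agent.TH488.HW
open Pool.Agent.H578R3.TorRigid (algSub proj_trans proj_trans' artinian_quot artinian_of_killed eE
  eE_tmul)

universe u v

set_option linter.unusedSectionVars false
set_option linter.style.haveILetI false

section Transfer

variable {T : Type*} [CommRing T] (S : Submonoid T) (R : Type*) [CommRing R] [Algebra T R]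
  [IsLocalization S R] {M : Type*} [AddCommGroup M] [Module R M] [Module T M] [IsScalarTower T R M]

theorem transfer {M' : Type*} [AddCommGroup M'] [Module T M'] [Module.FinitePresentation T M']
    (g : M' →ₗ[T] M) [IsLocalizedModule S g] (a : T)
    (hR : ∀ y : Module.Dual R M ⊗[R] M, algebraMap T R a • y = 0 → y = 0)
    (z : Module.Dual T M' ⊗[T] M') (hz : a • z = 0) : ∃ t ∈ S, t • z = 0 := by
  let G : Module.Dual T M' →ₗ[T] Module.Dual R M :=
    IsLocalizedModule.mapExtendScalars S g (Algebra.linearMap T R) R
  haveI hG : IsLocalizedModule S G :=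
    Module.FinitePresentation.isLocalizedModule_mapExtendScalars S g (Algebra.linearMap T R) R
  let J : Module.Dual T M' ⊗[T] M' →ₗ[T] Module.Dual R M ⊗[T] M := TensorProduct.map G g
  haveI hJ : IsLocalizedModule S J := inferInstance
  let E := IsLocalization.moduleTensorEquiv S R (Module.Dual R M) M
  have h1 : algebraMap T R a • J z = 0 := by
    rw [algebraMap_smul, ← map_smul, hz, map_zero]
  have h2 : algebraMap T R a • E.symm (J z) = 0 := by
    rw [← map_smul, h1, map_zero]
  have h3 : J z = 0 := E.symm.injective (by rw [hR _ h2, map_zero])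
  obtain ⟨s, hs⟩ := (IsLocalizedModule.eq_zero_iff S J).1 h3
  exact ⟨s, s.2, hs⟩

end Transfer

section Main

variable {T : Type u} [CommRing T] [IsDomain T] {V : Subring T} [IsDedekindDomain V]

/-- The embedding data over a domain, with multiplier in `V`. -/
theorem emb_data [Module.Finite V T] {N : Type*} [AddCommGroup N] [Module T N] [Module.Finite T N]
    (hNtf : ∀ (r : T) (n : N), r • n = 0 → r = 0 ∨ n = 0) :
    ∃ (I : Type) (_ : Fintype I) (f : N →ₗ[T] (I → T)) (s : (I → T) →ₗ[T] N) (a : V), a ≠ 0 ∧
      (∀ n, s (f n) = (a : T) • n) ∧ (∀ y, f (s y) = (a : T) • y) ∧ Injective f := by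
  obtain ⟨I, hI, f, s, a₀, ha₀, hs₀, hf₀, hf⟩ := exists_embedding (R := T) (N := N) hNtf
  haveI : Algebra.IsIntegral V T := Algebra.IsIntegral.of_finite V T
  obtain ⟨a, ha, c, hc⟩ := ((Algebra.IsIntegral.isIntegral (R := V) a₀).isAlgebraic).exists_nonzero_dvd
    (mem_nonZeroDivisors_of_ne_zero ha₀)
  have hc' : (a : T) = c * a₀ := by rw [mul_comm]; exact hc
  refine ⟨I, hI, f, c • s, a, ha, fun n => ?_, fun y => ?_, hf⟩
  · rw [LinearMap.smul_apply, hs₀, smul_smul, hc']
  · rw [LinearMap.smul_apply, map_smul, hf₀, smul_smul, hc']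

/-- **Towers that are domains, at a multiplicative set.** -/
theorem factor_domain (hV : Relation.ReflTransGen (Mono T) V ⊤)
    (M : Type*) [AddCommGroup M] [Module T M] [Module.Finite T M]
    (htf : ∀ (r : T) (m : M), r • m = 0 → r = 0 ∨ m = 0) (S : Submonoid T)
    (hT : ∀ (r : T), r ≠ 0 → ∀ z : Module.Dual T M ⊗[T] M, r • z = 0 → ∃ t ∈ S, t • z = 0) :
    ∃ t ∈ S, ∃ σ : M →ₗ[T] T ⊗[V] M, ∀ m, eE (A := V) (B := T) M (σ m) = t • m := by
  obtain ⟨hproj, hfin⟩ := tower_finite V hV
  haveI : IsNoetherian V T := inferInstance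
  haveI : IsNoetherianRing T := isNoetherian_of_tower V inferInstance
  haveI : Module.Finite T (Module.Dual T M) := inferInstance
  have hNtf : ∀ (r : T) (n : Module.Dual T M), r • n = 0 → r = 0 ∨ n = 0 := by
    intro r n hrn
    by_cases hr : r = 0
    · exact Or.inl hr
    · right
      ext m
      have := LinearMap.congr_fun hrn m
      rw [LinearMap.smul_apply, smul_eq_mul, LinearMap.zero_apply] at this
      exact (mul_eq_zero.1 this).resolve_left hr
  obtain ⟨I, _, f, s, a, ha, hs, hf, -⟩ :=
    emb_data (V := V) (N := Module.Dual T M) hNtf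
  have haT : (a : T) ≠ 0 := fun h => ha (Subtype.ext h)
  exact coreG (N := Module.Dual T M) LinearMap.id hV Function.bijective_id
    (fun v hv m hm => (htf (v : T) m hm).resolve_left (fun h => hv (Subtype.ext h)))
    f s S 1 S.one_mem a ha (by simpa using hs) (by simpa using hf)
    (fun z hz => hT (a : T) haT z hz)

/-- **Localizations of towers that are domains.** -/
theorem hw_loc (hV : Relation.ReflTransGen (Mono T) V ⊤) (S : Submonoid T)
    (hS : S ≤ nonZeroDivisors T) (R : Type*) [CommRing R] [Algebra T R] [IsLocalization S R]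
    (M : Type*) [AddCommGroup M] [Module R M] [Module.Finite R M]
    (htf : ∀ (r : R) (m : M), r • m = 0 → r = 0 ∨ m = 0)
    (hT : ∀ (r : R) (z : Module.Dual R M ⊗[R] M), r • z = 0 → r = 0 ∨ z = 0) :
    Module.Projective R M := by
  letI : Module T M := Module.compHom M (algebraMap T R)
  haveI : IsScalarTower T R M := ⟨fun t r m => by
    rw [Algebra.smul_def, mul_smul]; rfl⟩
  obtain ⟨hproj, hfin⟩ := tower_finite V hV
  haveI : IsNoetherian V T := inferInstance
  haveI : IsNoetherianRing T := isNoetherian_of_tower V inferInstance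
  have hinj : Injective (algebraMap T R) := IsLocalization.injective R hS
  obtain ⟨X, hX⟩ := (Module.Finite.fg_top : (⊤ : Submodule R M).FG)
  let M' := Submodule.span T (X : Set M)
  haveI : Module.Finite T M' := Module.Finite.iff_fg.2 ⟨X, rfl⟩
  haveI := lattice_loc S M (X : Set M) hX
  haveI : Module.FinitePresentation T M' := Module.finitePresentation_of_finite T M'
  obtain ⟨t, ht, σ, hσ⟩ := factor_domain hV M' (fun r m hrm => by
      have h1 : (algebraMap T R r) • (m : M) = 0 := by
        rw [algebraMap_smul]
        exact congrArg Subtype.val hrm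
      rcases htf _ _ h1 with h | h
      · exact Or.inl (hinj (by rw [h, map_zero]))
      · exact Or.inr (Subtype.ext h)) S (fun r hr z hz => by
      refine transfer S R (Submodule.span T (X : Set M)).subtype r (fun y hy => ?_) z hz
      exact (hT _ _ hy).resolve_left (fun h => hr (hinj (by rw [h, map_zero]))))
  haveI : Module.Finite V M' := Module.Finite.trans T M'
  haveI : Module.Projective V M' := by
    apply projective_of_tf
    intro v y hy
    have h1 : (algebraMap T R (v : T)) • (y : M) = 0 := by
      rw [algebraMap_smul]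
      exact congrArg Subtype.val hy
    rcases htf _ _ h1 with h | h
    · left
      exact Subtype.ext (hinj (by rw [h]; exact (map_zero _).symm))
    · exact Or.inr (Subtype.ext h)
  exact projective_of_factor S R (Submodule.span T (X : Set M)).subtype σ
    (eE (A := V) (B := T) M') t ht hσ

end Main

end Pool.Agent.TH488.HWG
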