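import Mathlib
import Pool.Agent.TH488.HWG.LocB

set_option autoImplicit false

/-! Self-extensions. -/

namespace Pool.Agent.TH488.HWG

open Function TensorProduct Polynomial
open Pool.Agent.TH488.HW
open Pool.Agent.H578R3.TorRigid (algSub proj_trans proj_trans' artinian_quot artinian_of_killed eE
  eE_tmul)

universe u v

set_option linter.unusedSectionVars false
set_option linter.style.haveILetI false

section Ext

variable {T : Type u} [CommRing T] {V : Subring T} (l : T →ₗ[V] V)
variable {M N : Type*} [AddCommGroup M] [Module T M] [AddCommGroup N] [Module T N]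
variable (pr : N →ₗ[T] M →ₗ[T] T)

/-- Extension of functionals, from the extension of homomorphisms. -/
theorem ext_functional
    (hls : ∀ φ : T →ₗ[V] V, ∃ r : T, ∀ s, φ s = l (r * s))
    (hln : ∀ r : T, (∀ s, l (r * s) = 0) → r = 0)
    (hpr : Function.Bijective pr) [Module.Finite V M] [Module.Projective V M]
    {F : Type*} [AddCommGroup F] [Module T F] (K : Submodule T F) (S : Submonoid T)
    (hE : ∀ g : K →ₗ[T] M, ∃ t ∈ S, ∃ G : F →ₗ[T] M, ∀ x : K, G x = t • g x)
    (φ : (LinearMap.range (LinearMap.lTensor N K.subtype)) →+ V)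
    (hφV : ∀ (v : V) (x : LinearMap.range (LinearMap.lTensor N K.subtype)),
      φ ((v : T) • x) = v * φ x) :
    ∃ t ∈ S, ∃ ψ : N ⊗[T] F →+ V, (∀ (v : V) x, ψ ((v : T) • x) = v * ψ x) ∧
      ∀ w : LinearMap.range (LinearMap.lTensor N K.subtype), ψ w = φ (t • w) := by
  let q : N ⊗[T] K →ₗ[T] LinearMap.range (LinearMap.lTensor N K.subtype) :=
    (LinearMap.lTensor N K.subtype).rangeRestrict
  have hg : ∀ x : K, ∃ m : M, ∀ n : N, φ (q (n ⊗ₜ x)) = bt l pr n m := by
    intro x
    exact bt_perf l pr hls hln hpr
      { toFun := fun n => φ (q (n ⊗ₜ x))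
        map_add' := fun a b => by rw [TensorProduct.add_tmul, map_add, map_add]
        map_smul' := fun v a => by
          have h1 : v • a = (v : T) • a := rfl
          rw [h1, ← TensorProduct.smul_tmul', map_smul, hφV]
          rfl }
  choose g hg using hg
  have huniq : ∀ m m' : M, (∀ n, bt l pr n m = bt l pr n m') → m = m' := by
    intro m m' hmm
    rw [← sub_eq_zero]
    apply bt_nd l pr hls hln hpr
    intro n
    rw [map_sub, sub_eq_zero]
    exact hmm n
  let gl : K →ₗ[T] M :=
    { toFun := g
      map_add' := by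
        intro x y
        apply huniq
        intro n
        rw [map_add, ← hg, ← hg, ← hg, TensorProduct.tmul_add, map_add, map_add]
      map_smul' := by
        intro r x
        apply huniq
        intro n
        rw [RingHom.id_apply, ← bt_bal, ← hg, ← hg, TensorProduct.smul_tmul] }
  obtain ⟨t, ht, G, hG⟩ := hE gl
  let ψ : N ⊗[T] F →+ V := TensorProduct.liftAddHom
    { toFun := fun n => (bt l pr n).comp G.toAddMonoidHom
      map_zero' := by ext y; simp
      map_add' := fun a b => by ext y; simp }
    (fun r n y => by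
      change bt l pr (r • n) (G y) = bt l pr n (G (r • y))
      rw [G.map_smul, bt_bal])
  have hψ : ∀ n y, ψ (n ⊗ₜ y) = bt l pr n (G y) := fun n y => rfl
  refine ⟨t, ht, ψ, ?_, ?_⟩
  · intro v x
    induction x using TensorProduct.induction_on with
    | zero => rw [smul_zero, map_zero, mul_zero]
    | add x y hx hy => rw [smul_add, map_add, map_add, hx, hy, mul_add]
    | tmul n y =>
      rw [TensorProduct.smul_tmul', hψ, hψ]
      exact bt_smul l pr v n (G y)
  · rintro ⟨w, x, rfl⟩
    have h1 : ∀ x : N ⊗[T] K, ψ (LinearMap.lTensor N K.subtype x) = φ (t • q x) := by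
      intro x
      induction x using TensorProduct.induction_on with
      | zero => rw [map_zero, map_zero, map_zero, smul_zero, map_zero]
      | add x y hx hy => rw [map_add, map_add, map_add, smul_add, map_add, hx, hy]
      | tmul n y =>
        have e : t • q (n ⊗ₜ y) = q ((t • n) ⊗ₜ y) := by
          rw [← map_smul, TensorProduct.smul_tmul']
        rw [LinearMap.lTensor_tmul, hψ, Submodule.subtype_apply, hG, e, ← bt_bal]
        exact (hg y (t • n)).symm
    exact h1 x

/-- Torsion in `N ⊗ M` is killed by `S`. -/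
theorem ext_torsion [IsDedekindDomain V] [Module.Finite V T]
    (hls : ∀ φ : T →ₗ[V] V, ∃ r : T, ∀ s, φ s = l (r * s))
    (hln : ∀ r : T, (∀ s, l (r * s) = 0) → r = 0)
    (hpr : Function.Bijective pr) [Module.Finite T M] [Module.Finite T N]
    (htf : ∀ v : V, v ≠ 0 → ∀ m : M, v • m = 0 → m = 0)
    (htfN : ∀ v : V, v ≠ 0 → ∀ m : N, v • m = 0 → m = 0)
    {k : ℕ} (π : (Fin k → T) →ₗ[T] M) (hπ : Surjective π) (S : Submonoid T)
    (hE : ∀ g : LinearMap.ker π →ₗ[T] M, ∃ t ∈ S, ∃ G : (Fin k → T) →ₗ[T] M,
      ∀ x : LinearMap.ker π, G x = t • g x)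
    (v : V) (hv : v ≠ 0) (z : N ⊗[T] M) (hz : (v : T) • z = 0) : ∃ t ∈ S, t • z = 0 := by
  haveI : Module.Finite V M := Module.Finite.trans T M
  haveI hMV : Module.Projective V M := by
    apply projective_of_tf
    intro v y hy
    by_cases hv : v = 0
    · exact Or.inl hv
    · exact Or.inr (htf v hv y hy)
  let K := LinearMap.ker π
  let I := LinearMap.range (LinearMap.lTensor N K.subtype)
  -- `N ⊗ F` is torsion free
  have htfF : ∀ v : V, v ≠ 0 → ∀ w : N ⊗[T] (Fin k → T), (v : T) • w = 0 → w = 0 := by
    intro v hv w hw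
    have h1 : Injective (LinearMap.rTensor (Fin k → T) (LinearMap.lsmul T N (v : T))) := by
      apply Module.Flat.rTensor_preserves_injective_linearMap
      rw [injective_iff_map_eq_zero]
      intro n hn
      exact htfN v hv n hn
    apply h1
    rw [map_zero, ← hw]
    clear hw
    induction w using TensorProduct.induction_on with
    | zero => rw [smul_zero, map_zero]
    | add x y hx hy => rw [map_add, smul_add, hx, hy]
    | tmul n y => rfl
  haveI : IsNoetherian V T := inferInstance
  haveI : IsNoetherianRing T := isNoetherian_of_tower V inferInstance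
  haveI : Module.Finite T I := inferInstance
  haveI : Module.Finite V I := Module.Finite.trans T I
  haveI hIV : Module.Projective V I := by
    apply projective_of_tf
    intro v y hy
    by_cases hv : v = 0
    · exact Or.inl hv
    · right
      exact Subtype.ext (htfF v hv y (congrArg Subtype.val hy))
  obtain ⟨m, p, hp⟩ := Module.Finite.exists_fin' V I
  obtain ⟨i, hi⟩ := Module.projective_lifting_property p (LinearMap.id : I →ₗ[V] I) hp
  have hφ : ∀ j : Fin m, ∃ t ∈ S, ∃ ψ : N ⊗[T] (Fin k → T) →+ V,
      (∀ (v : V) x, ψ ((v : T) • x) = v * ψ x) ∧ ∀ w : I, ψ w = i (t • w) j := by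
    intro j
    exact ext_functional l pr hls hln hpr K S hE
      { toFun := fun w => i w j
        map_zero' := by rw [map_zero]; rfl
        map_add' := fun x y => by rw [map_add]; rfl }
      (fun v x => by
        change i (v • x) j = v * i x j
        rw [map_smul]
        rfl)
  choose t ht ψ hψV hψ using hφ
  obtain ⟨e, rfl⟩ := LinearMap.lTensor_surjective N hπ z
  have hex : Exact (LinearMap.lTensor N K.subtype) (LinearMap.lTensor N π) :=
    lTensor_exact N (LinearMap.exact_subtype_ker_map π) hπ
  rw [← map_smul] at hz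
  have hve : (v : T) • e ∈ I := (hex _).1 hz
  let t₀ : T := ∏ j, t j
  refine ⟨t₀, S.prod_mem fun j _ => ht j, ?_⟩
  -- the coordinates
  let c : Fin m → V := fun j => ψ j ((∏ j' ∈ Finset.univ.erase j, t j') • e)
  have hc : ∀ j, i (t₀ • (⟨(v : T) • e, hve⟩ : I)) j = v * c j := by
    intro j
    have h1 : t₀ = t j * ∏ j' ∈ Finset.univ.erase j, t j' :=
      (Finset.mul_prod_erase _ _ (Finset.mem_univ j)).symm
    rw [h1, mul_smul, ← hψ, ← hψV, smul_comm]
    rfl
  have h2 : t₀ • (⟨(v : T) • e, hve⟩ : I) = v • p c := by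
    have h3 := LinearMap.congr_fun hi (t₀ • (⟨(v : T) • e, hve⟩ : I))
    rw [LinearMap.comp_apply, LinearMap.id_apply] at h3
    rw [← h3, ← map_smul]
    congr 1
    funext j
    rw [hc]
    rfl
  have h3 : (v : T) • (t₀ • e - (p c : N ⊗[T] (Fin k → T))) = 0 := by
    rw [smul_sub, sub_eq_zero, smul_comm]
    exact congrArg Subtype.val h2
  have h4 := htfF v hv _ h3
  rw [sub_eq_zero] at h4
  rw [← map_smul, h4]
  exact (hex _).2 (p c).2

end Ext

end Pool.Agent.TH488.HWG
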