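import Mathlib
import Pool.Agent.TH488.HWG.ExtA

set_option autoImplicit false

/-! Rigid modules over localizations of towers. -/

namespace Pool.Agent.TH488.HWG

open Function TensorProduct Polynomial
open Pool.Agent.TH488.HW
open Pool.Agent.H578R3.TorRigid (algSub proj_trans proj_trans' artinian_quot artinian_of_killed eE
  eE_tmul)

universe u v

set_option linter.unusedSectionVars false
set_option linter.style.haveILetI false

/-- Every self-extension of `M` splits. -/
def SelfExtSplit (R : Type u) [CommRing R] (M : Type u) [AddCommGroup M] [Module R M] : Prop :=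
  ∀ (E : Type u) [AddCommGroup E] [Module R E] (f : M →ₗ[R] E) (g : E →ₗ[R] M),
         Function.Injective f → Function.Surjective g → Function.Exact f g →
         ∃ s : M →ₗ[R] E, g.comp s = LinearMap.id

section Push

variable {T : Type*} [CommRing T] (S : Submonoid T) {R : Type u} [CommRing R] [Algebra T R]
  [IsLocalization S R] {M : Type u} [AddCommGroup M] [Module R M] [Module T M] [IsScalarTower T R M]

theorem push (hinj : Injective (algebraMap T R)) (M' : Submodule T M)
    [IsLocalizedModule S M'.subtype]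
    {k : ℕ} (π : (Fin k → T) →ₗ[T] M') (hπ : Surjective π) (g : LinearMap.ker π →ₗ[T] M')
    (hspl : SelfExtSplit R M) :
    ∃ t ∈ S, ∃ G : (Fin k → T) →ₗ[T] M', ∀ x : LinearMap.ker π, G x = t • g x := by
  let ι : (Fin k → T) →ₗ[T] (Fin k → R) := LinearMap.compLeft (Algebra.linearMap T R) (Fin k)
  have hι : ∀ x j, ι x j = algebraMap T R (x j) := fun x j => rfl
  have hιinj : Injective ι := by
    intro x y hxy
    funext j
    exact hinj (congrFun hxy j)
  let πR : (Fin k → R) →ₗ[R] M := Fintype.linearCombination R (fun j => (π (Pi.single j 1) : M))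
  have hπR : ∀ x, πR (ι x) = π x := by
    intro x
    rw [Fintype.linearCombination_apply]
    conv_rhs => rw [LinearMap.pi_apply_eq_sum_univ π x, Submodule.coe_sum]
    refine Finset.sum_congr rfl fun j _ => ?_
    rw [hι, algebraMap_smul, Submodule.coe_smul]
    congr 3
    funext i
    by_cases hij : i = j
    · subst hij; simp
    · simp [hij, Ne.symm hij]
  have hsmul : ∀ (s : T), s ∈ S → ∀ m : M, s • m = 0 → m = 0 := by
    intro s hs m hm
    rw [← algebraMap_smul R] at hm
    exact (IsLocalization.map_units R (⟨s, hs⟩ : S)).smul_eq_zero.1 hm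
  let rel : Set (M × (Fin k → R)) := Set.range fun x : LinearMap.ker π => ((g x : M), -ι x)
  let Sub : Submodule R (M × (Fin k → R)) := Submodule.span R rel
  have hrel : ∀ x : LinearMap.ker π, (((g x : M), -ι x) : M × (Fin k → R)) ∈ Sub := fun x =>
    Submodule.subset_span ⟨x, rfl⟩
  have hSub : ∀ w ∈ Sub, ∃ s ∈ S, ∃ x : LinearMap.ker π, s • w.1 = (g x : M) ∧ s • w.2 = -ι x := by
    intro w hw
    induction hw using Submodule.span_induction with
    | mem w hw =>
      obtain ⟨x, rfl⟩ := hw
      exact ⟨1, S.one_mem, x, one_smul _ _, one_smul _ _⟩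
    | zero => exact ⟨1, S.one_mem, 0, by simp, by simp⟩
    | add w w' _ _ hw hw' =>
      obtain ⟨s, hs, x, h1, h2⟩ := hw
      obtain ⟨s', hs', x', h1', h2'⟩ := hw'
      refine ⟨s * s', S.mul_mem hs hs', s' • x + s • x', ?_, ?_⟩
      · rw [Prod.fst_add, smul_add, mul_smul s s' w'.1, h1', mul_comm, mul_smul s' s w.1, h1,
          map_add, map_smul, map_smul]
        rfl
      · rw [Prod.snd_add, smul_add, mul_smul s s' w'.2, h2', mul_comm, mul_smul s' s w.2, h2,
          Submodule.coe_add, Submodule.coe_smul, Submodule.coe_smul, map_add, map_smul, map_smul,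
          smul_neg, smul_neg, neg_add]
    | smul r w _ hw =>
      obtain ⟨s, hs, x, h1, h2⟩ := hw
      obtain ⟨t, u, rfl⟩ := IsLocalization.exists_mk'_eq S r
      have key : ∀ {Q : Type u} [AddCommGroup Q] [Module R Q] [Module T Q] [IsScalarTower T R Q]
          (q : Q), ((u : T) * s) • (IsLocalization.mk' R t u) • q = t • s • q := by
        intro Q _ _ _ _ q
        rw [mul_comm, mul_smul, ← smul_assoc (u : T), IsLocalization.smul_mk'_self,
            algebraMap_smul, smul_comm]
      refine ⟨u * s, S.mul_mem u.2 hs, t • x, ?_, ?_⟩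
      · rw [Prod.smul_fst, key, h1, map_smul]
        rfl
      · rw [Prod.smul_snd, key, h2, Submodule.coe_smul, map_smul, smul_neg]
  let E := (M × (Fin k → R)) ⧸ Sub
  let i : M →ₗ[R] E := Sub.mkQ ∘ₗ LinearMap.inl R M (Fin k → R)
  let p : E →ₗ[R] M := Sub.liftQ (πR ∘ₗ LinearMap.snd R M (Fin k → R)) (by
    rw [Submodule.span_le]
    rintro _ ⟨x, rfl⟩
    rw [SetLike.mem_coe, LinearMap.mem_ker, LinearMap.comp_apply, LinearMap.snd_apply, map_neg,
      hπR, x.2]
    simp)
  have hp : ∀ w, p (Sub.mkQ w) = πR w.2 := fun w => rfl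
  have hi : Injective i := by
    rw [injective_iff_map_eq_zero]
    intro m hm
    have h1 : ((m, 0) : M × (Fin k → R)) ∈ Sub := (Submodule.Quotient.mk_eq_zero _).1 hm
    obtain ⟨s, hs, x, h2, h3⟩ := hSub _ h1
    have h4 : (x : Fin k → T) = 0 := by
      apply hιinj
      rw [map_zero, ← neg_eq_zero, ← h3, smul_zero]
    have h5 : x = 0 := Subtype.ext h4
    rw [h5, map_zero] at h2
    exact hsmul s hs m h2
  have hpsurj : Surjective p := by
    intro m
    obtain ⟨⟨m', s⟩, hm⟩ := IsLocalizedModule.surj S M'.subtype m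
    obtain ⟨x, rfl⟩ := hπ m'
    obtain ⟨u, hu⟩ := IsLocalization.map_units R s
    refine ⟨Sub.mkQ (0, (↑u⁻¹ : R) • ι x), ?_⟩
    rw [hp]
    change πR ((↑u⁻¹ : R) • ι x) = m
    rw [map_smul, hπR]
    have h1 : (s : T) • m = (π x : M) := hm
    have h2 : (s : T) • m = (u : R) • m := by rw [hu, algebraMap_smul]
    rw [← h1, h2, smul_smul, Units.inv_mul, one_smul]
  have hip : Exact i p := by
    intro e
    constructor
    · intro he
      obtain ⟨⟨m, y⟩, rfl⟩ := Submodule.mkQ_surjective _ e
      rw [hp] at he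
      change πR y = 0 at he
      -- common denominator
      obtain ⟨s, hs⟩ := IsLocalization.exist_integer_multiples_of_finite S y
      choose x hx using hs
      have hιx : ι x = (s : T) • y := by
        funext j
        rw [hι, hx]
        rfl
      have hxk : x ∈ LinearMap.ker π := by
        rw [LinearMap.mem_ker]
        apply Subtype.ext
        rw [← hπR, hιx, ← algebraMap_smul R, map_smul, he, smul_zero]
        rfl
      obtain ⟨u, hu⟩ := IsLocalization.map_units R s
      refine ⟨m + (↑u⁻¹ : R) • (g ⟨x, hxk⟩ : M), ?_⟩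
      change Sub.mkQ (m + (↑u⁻¹ : R) • (g ⟨x, hxk⟩ : M), 0) = Sub.mkQ (m, y)
      rw [Submodule.mkQ_apply, Submodule.mkQ_apply, Submodule.Quotient.eq]
      have h1 : ((m + (↑u⁻¹ : R) • (g ⟨x, hxk⟩ : M), 0) : M × (Fin k → R)) - (m, y) =
          (↑u⁻¹ : R) • ((g ⟨x, hxk⟩ : M), -ι x) := by
        have h2 : (s : T) • y = (u : R) • y := by rw [hu, algebraMap_smul]
        rw [Prod.mk_sub_mk, Prod.smul_mk, add_sub_cancel_left, zero_sub, hιx, smul_neg,
          h2, smul_smul, Units.inv_mul, one_smul]
      rw [h1]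
      exact Submodule.smul_mem _ _ (hrel ⟨x, hxk⟩)
    · rintro ⟨m, rfl⟩
      change πR 0 = 0
      exact map_zero _
  obtain ⟨σ, hσ⟩ := hspl E i p hi hpsurj hip
  have hσ' : ∀ m, p (σ m) = m := fun m => LinearMap.congr_fun hσ m
  -- the retraction
  let τ : E →ₗ[R] E := LinearMap.id - σ ∘ₗ p
  have hτ : ∀ e, τ e ∈ LinearMap.range i := by
    intro e
    apply (hip _).1
    change p (e - σ (p e)) = 0
    rw [map_sub, hσ', sub_self]
  let ei := LinearEquiv.ofInjective i hi
  let ρ : E →ₗ[R] M := ei.symm.toLinearMap ∘ₗ τ.codRestrict _ hτ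
  have hρ : ∀ m, ρ (i m) = m := by
    intro m
    apply ei.injective
    change ei (ei.symm _) = ei m
    rw [LinearEquiv.apply_symm_apply]
    apply Subtype.ext
    change i m - σ (p (i m)) = i m
    rw [hip.apply_apply_eq_zero, map_zero, sub_zero]
  let GR : (Fin k → R) →ₗ[R] M := ρ ∘ₗ Sub.mkQ ∘ₗ LinearMap.inr R M (Fin k → R)
  have hGR : ∀ x : LinearMap.ker π, GR (ι x) = g x := by
    intro x
    have h1 : Sub.mkQ ((0, ι x) : M × (Fin k → R)) = i (g x) := by
      change Sub.mkQ ((0, ι x) : M × (Fin k → R)) = Sub.mkQ ((g x : M), 0)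
      rw [eq_comm, Submodule.mkQ_apply, Submodule.mkQ_apply, Submodule.Quotient.eq]
      have h2 : (((g x : M), 0) : M × (Fin k → R)) - (0, ι x) = ((g x : M), -ι x) := by
        rw [Prod.mk_sub_mk, sub_zero, zero_sub]
      rw [h2]
      exact hrel x
    change ρ (Sub.mkQ (0, ι x)) = g x
    rw [h1, hρ]
  have hden : ∀ j : Fin k, ∃ s ∈ S, s • GR (Pi.single j 1) ∈ M' := by
    intro j
    obtain ⟨⟨m', s⟩, hm⟩ := IsLocalizedModule.surj S M'.subtype (GR (Pi.single j 1))
    refine ⟨s, s.2, ?_⟩
    have h1 : (s : T) • GR (Pi.single j 1) = (m' : M) := hm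
    rw [h1]
    exact m'.2
  choose t ht htm using hden
  let t₀ : T := ∏ j, t j
  have hmem : ∀ x, (t₀ • (GR.restrictScalars T ∘ₗ ι)) x ∈ M' := by
    intro x
    rw [LinearMap.pi_apply_eq_sum_univ (t₀ • (GR.restrictScalars T ∘ₗ ι)) x]
    refine Submodule.sum_mem _ fun j _ => Submodule.smul_mem _ _ ?_
    have h1 : ι (fun i => if j = i then 1 else 0) = Pi.single j 1 := by
      funext i
      rw [hι]
      by_cases hij : i = j
      · subst hij; simp
      · simp [hij, Ne.symm hij]
    have h2 : t₀ = (∏ j' ∈ Finset.univ.erase j, t j') * t j :=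
      (Finset.prod_erase_mul _ _ (Finset.mem_univ j)).symm
    rw [LinearMap.smul_apply, LinearMap.comp_apply, h1, h2, mul_smul]
    exact Submodule.smul_mem _ _ (htm j)
  refine ⟨t₀, S.prod_mem fun j _ => ht j, (t₀ • (GR.restrictScalars T ∘ₗ ι)).codRestrict M' hmem,
    fun x => ?_⟩
  apply Subtype.ext
  change t₀ • GR (ι x) = ((t₀ • g x : M') : M)
  rw [hGR]
  rfl

end Push

section Main

variable {T : Type u} [CommRing T] [IsDomain T] {V : Subring T} [IsDedekindDomain V]

/-- **Rigid modules over localizations of towers that are domains.** -/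
theorem ext_loc (hV : Relation.ReflTransGen (Mono T) V ⊤) (S : Submonoid T)
    (hS : S ≤ nonZeroDivisors T) (R : Type v) [CommRing R] [Algebra T R] [IsLocalization S R]
    (M : Type v) [AddCommGroup M] [Module R M] [Module.Finite R M]
    (htf : ∀ (r : R) (m : M), r • m = 0 → r = 0 ∨ m = 0)
    (hspl : SelfExtSplit R M) :
    Module.Projective R M := by
  letI : Module T M := Module.compHom M (algebraMap T R)
  haveI : IsScalarTower T R M := ⟨fun t r m => by
    rw [Algebra.smul_def, mul_smul]; rfl⟩
  obtain ⟨hproj, hfin⟩ := tower_finite V hV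
  haveI : IsNoetherian V T := inferInstance
  haveI : IsNoetherianRing T := isNoetherian_of_tower V inferInstance
  have hinj : Injective (algebraMap T R) := IsLocalization.injective R hS
  obtain ⟨X, hX⟩ := (Module.Finite.fg_top : (⊤ : Submodule R M).FG)
  let M' := Submodule.span T (X : Set M)
  haveI : Module.Finite T M' := Module.Finite.iff_fg.2 ⟨X, rfl⟩
  haveI hlat : IsLocalizedModule S M'.subtype := lattice_loc S M (X : Set M) hX
  haveI : Module.FinitePresentation T M' := Module.finitePresentation_of_finite T M'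
  have htfM' : ∀ (r : T) (m : M'), r • m = 0 → r = 0 ∨ m = 0 := by
    intro r m hrm
    have h1 : (algebraMap T R r) • (m : M) = 0 := by
      rw [algebraMap_smul]
      exact congrArg Subtype.val hrm
    rcases htf _ _ h1 with h | h
    · exact Or.inl (hinj (by rw [h, map_zero]))
    · exact Or.inr (Subtype.ext h)
  obtain ⟨l, hls, hln⟩ := tower_frob V hV
  haveI : Module.Finite T (Module.Dual T M') := inferInstance
  haveI : Algebra.IsIntegral V T := Algebra.IsIntegral.of_finite V T
  obtain ⟨t, ht, σ, hσ⟩ := factor_domain hV M' htfM' S (fun r hr z hz => by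
      obtain ⟨v, hv, c, hc⟩ :=
        ((Algebra.IsIntegral.isIntegral (R := V) r).isAlgebraic).exists_nonzero_dvd
          (mem_nonZeroDivisors_of_ne_zero hr)
      obtain ⟨k, π, hπ⟩ := Module.Finite.exists_fin' T M'
      have hvz : (v : T) • z = 0 := by
        have hc' : (v : T) = c * r := by rw [mul_comm]; exact hc
        rw [hc', mul_smul, hz, smul_zero]
      refine ext_torsion (N := Module.Dual T M') l LinearMap.id hls hln Function.bijective_id
        (fun v hv m hm => (htfM' (v : T) m hm).resolve_left (fun h => hv (Subtype.ext h))) ?_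
        π hπ S (fun g => push S hinj M' π hπ g hspl) v hv z hvz
      intro v hv n hn
      ext m
      have h1 : (v : T) * n m = 0 := by
        have := LinearMap.congr_fun hn m
        exact this
      exact (mul_eq_zero.1 h1).resolve_left (fun h => hv (Subtype.ext h)))
  haveI : Module.Finite V M' := Module.Finite.trans T M'
  haveI : Module.Projective V M' := by
    apply projective_of_tf
    intro v y hy
    rcases htfM' (v : T) y hy with h | h
    · exact Or.inl (Subtype.ext h)
    · exact Or.inr h
  exact projective_of_factor S R (Submodule.span T (X : Set M)).subtype σ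
    (eE (A := V) (B := T) M') t ht hσ

end Main

end Pool.Agent.TH488.HWG
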